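import Pool.Agent.TH769.CD.Core

set_option autoImplicit false

/-!
The construction for an oracle, and comparison of constructions.
-/

namespace Pool.Agent.TH769.CD

open Encodable Pool.Agent.Helper227 Pool.Agent.H548R2.Post
open Nat.Partrec (Code)

/-! Comparison of constructions. -/

section

variable {E : ℕ → ℕ → ℕ → ℕ → Prop} {C : ℕ → ℕ → ℕ → ℕ → ℕ → (ℕ → Prop) → Prop}
  {E' : ℕ → ℕ → ℕ → ℕ → Prop} {C' : ℕ → ℕ → ℕ → ℕ → ℕ → (ℕ → Prop) → Prop}
  {δ δ' : ℕ → List Bool} {A A' : ℕ → ℕ → ℕ → Prop} {V V' : ℕ → ℕ → ℕ → Prop}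

theorem isPrv_congr {s : ℕ} (h : ∀ t < s + 1, δ t = δ' t) {n t : ℕ} (hp : IsPrv δ s n t) :
    IsPrv δ' s n t := by
  obtain ⟨h1, h2, h3⟩ := hp
  refine ⟨h1, ?_, fun t' ht' hlt => ?_⟩
  · rw [← h t (by omega), ← h s (by omega)]
    exact h2
  · rw [← h t' (by omega), ← h s (by omega)]
    exact h3 t' ht' hlt

theorem cand_delta {s : ℕ} (h : ∀ t < s + 1, δ t = δ' t) {n k z : ℕ}
    (hc : Cand E C δ V s n k z) : Cand E C δ' V s n k z := by
  obtain ⟨h1, h2, h3, t, ht, hp, h4, h5⟩ := hc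
  have hs := h s (by omega)
  rw [hs] at h2 h3 h4
  refine ⟨h1, h2, fun u hu hL => h3 u hu ?_, t, ht, isPrv_congr h hp, h4, ?_⟩
  · rw [h u (by omega)]
    exact hL
  · rw [hs] at h5
    exact h5

theorem step_delta {s : ℕ} (h : ∀ t < s + 1, δ t = δ' t) {k z : ℕ}
    (hc : Step E C δ V s k z) : Step E C δ' V s k z := by
  obtain ⟨n, hn, h1, h2, h3⟩ := hc
  have h' : ∀ t < s + 1, δ' t = δ t := fun t ht => (h t ht).symm
  refine ⟨n, hn, cand_delta h h1, fun z' hz' hc => h2 z' hz' (cand_delta h' hc), ?_⟩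
  intro m hm t ht hp j hj hs
  have := h3 m hm t ht (isPrv_congr h' hp) j hj
  rw [h s (by omega)] at this
  exact this hs

theorem step_delta_iff {s : ℕ} (h : ∀ t < s + 1, δ t = δ' t) {k z : ℕ} :
    Step E C δ V s k z ↔ Step E C δ' V s k z :=
  ⟨step_delta h, step_delta fun t ht => (h t ht).symm⟩

/-- the data of two constructions agree at stage `t` for the indices `k` and `k'` -/
def Agr (E : ℕ → ℕ → ℕ → ℕ → Prop) (C : ℕ → ℕ → ℕ → ℕ → ℕ → (ℕ → Prop) → Prop)
    (V : ℕ → ℕ → ℕ → Prop)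
    (E' : ℕ → ℕ → ℕ → ℕ → Prop) (C' : ℕ → ℕ → ℕ → ℕ → ℕ → (ℕ → Prop) → Prop)
    (V' : ℕ → ℕ → ℕ → Prop) (t k k' : ℕ) : Prop :=
  (∀ n z, E t n z k ↔ E' t n z k') ∧
  (∀ m c u, u < t + 1 → (C t m c u k (V t k) ↔ C' t m c u k' (V' t k'))) ∧
  ∀ y, V t k y ↔ V' t k' y

theorem Agr.symm {t k k' : ℕ} (h : Agr E C V E' C' V' t k k') : Agr E' C' V' E C V t k' k :=
  ⟨fun n z => (h.1 n z).symm, fun m c u hu => (h.2.1 m c u hu).symm, fun y => (h.2.2 y).symm⟩

theorem ok_comp {t k k' m c z : ℕ} (h : Agr E C V E' C' V' t k k')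
    (hok : Ok C t m c z k (V t k)) : Ok C' t m c z k' (V' t k') := by
  rintro ⟨u, hu, hC⟩
  obtain ⟨u', h1, h2, h3⟩ := hok ⟨u, hu, (h.2.1 m c u hu).2 hC⟩
  exact ⟨u', h1, h2, (h.2.1 m c u' h2).1 h3⟩

theorem cand_comp {s n k k' z : ℕ}
    (h : ∀ t, IsPrv δ s n t → ∀ j < 2 ^ n, Sub n j (δ s) →
      Agr E C V E' C' V' t (k ^^^ j) (k' ^^^ j))
    (hc : Cand E C δ V s n k z) : Cand E' C' δ V' s n k' z := by
  obtain ⟨h1, h2, h3, t, ht, hp, ⟨j, hj, hs, hE, hy⟩, h5⟩ := hc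
  refine ⟨h1, h2, h3, t, ht, hp, ⟨j, hj, hs, ?_, ?_⟩, ?_⟩
  · exact ((h t hp j hj hs).1 n z).1 hE
  · intro y hyt hV hE'
    exact hy y hyt (((h t hp j hj hs).2.2 y).2 hV) (((h t hp j hj hs).1 n y).2 hE')
  · intro m hm j' hj' hs'
    exact ok_comp (h t hp j' hj' hs') (h5 m hm j' hj' hs')

theorem step_comp {s k k' z : ℕ}
    (h : ∀ n < s, ∀ t, IsPrv δ s n t → ∀ j < 2 ^ n, Sub n j (δ s) →
      Agr E C V E' C' V' t (k ^^^ j) (k' ^^^ j))
    (hc : Step E C δ V s k z) : Step E' C' δ V' s k' z := by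
  obtain ⟨n, hn, h1, h2, h3⟩ := hc
  refine ⟨n, hn, cand_comp (h n hn) h1, fun z' hz' hc => h2 z' hz' ?_, ?_⟩
  · exact cand_comp (E := E') (C := C') (V := V')
      (fun t hp j hj hs => (h n hn t hp j hj hs).symm) hc
  · intro m hm t ht hp j hj hs
    exact ok_comp (h m (by omega) t hp j hj hs) (h3 m hm t ht hp j hj hs)

theorem comp_A {S : ℕ} {R : ℕ → ℕ → ℕ → Prop}
    (hA : ∀ s < S, ∀ k k', R s k k' → ∀ z, A s k z ↔ Step E C δ (VV A) s k z)
    (hA' : ∀ s < S, ∀ k k', R s k k' → ∀ z, A' s k' z ↔ Step E' C' δ (VV A') s k' z)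
    (r1 : ∀ s s' k k', R s k k' → s' ≤ s → R s' k k')
    (r2 : ∀ s < S, ∀ n < s, ∀ t k k' j, R s k k' → IsPrv δ s n t → j < 2 ^ n →
      Sub n j (δ s) → R t (k ^^^ j) (k' ^^^ j))
    (r3 : ∀ t < S, ∀ k k', R t k k' → ∀ n z, (E t n z k ↔ E' t n z k'))
    (r4 : ∀ t < S, ∀ k k', R t k k' → ∀ m c u v v', u < t + 1 → (∀ y, v y ↔ v' y) →
      (C t m c u k v ↔ C' t m c u k' v')) :
    ∀ s < S, ∀ k k', R s k k' → ∀ z, A s k z ↔ A' s k' z := by
  intro s
  induction s using Nat.strong_induction_on with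
  | _ s ih =>
    intro hs k k' hR z
    rw [hA s hs k k' hR z, hA' s hs k k' hR z]
    have hag : ∀ n < s, ∀ t, IsPrv δ s n t → ∀ j < 2 ^ n, Sub n j (δ s) →
        Agr E C (VV A) E' C' (VV A') t (k ^^^ j) (k' ^^^ j) := by
      intro n hn t hp j hj hsub
      have h1 := r2 s hs n hn t k k' j hR hp hj hsub
      have h2 := hp.1
      have h3 : ∀ y, VV A t (k ^^^ j) y ↔ VV A' t (k' ^^^ j) y := by
        intro y
        refine exists_congr fun q => and_congr_right fun hq => ?_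
        exact ih q (by omega) (by omega) _ _ (r1 _ _ _ _ h1 (by omega)) y
      exact ⟨fun n z => r3 t (by omega) _ _ h1 n z,
        fun m c u hu => r4 t (by omega) _ _ h1 m c u _ _ hu h3, h3⟩
    constructor
    · exact step_comp hag
    · exact step_comp fun n hn t hp j hj hsub => (hag n hn t hp j hj hsub).symm

end

/-! The construction for an oracle. -/

/-- the second half of `X` -/
def od (X : ℕ → Bool) : ℕ → Bool := fun i => X (2 * i + 1)

open Classical in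
/-- The first `t` values of the `i`-th partial function computable from `od X` are known by
stage `s`. -/
noncomputable def kn (X : ℕ → Bool) (i t s : ℕ) : Bool :=
  decide (∀ m < t, En s i.unpair.1 m (od X) ∨ En s i.unpair.2 m (od X))

theorem kn_iff {X : ℕ → Bool} {i t s : ℕ} : kn X i t s = true ↔
    ∀ m < t, En s i.unpair.1 m (od X) ∨ En s i.unpair.2 m (od X) := by
  simp only [kn, decide_eq_true_eq]

theorem kn_mono (X : ℕ → Bool) : Mono (kn X) := by
  intro i t t' s s' ht hs h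
  rw [kn_iff] at h ⊢
  exact fun m hm => (h m (by omega)).imp (En_mono hs) (En_mono hs)

open Classical in
/-- the values of the `i`-th partial function computable from `od X` (`false` if undefined) -/
noncomputable def cI (X : ℕ → Bool) (i m : ℕ) : Bool :=
  decide (∃ s, En s i.unpair.1 m (od X) ∧ ¬ En s i.unpair.2 m (od X))

open Classical in
/-- the approximation of `cI` at stage `S` -/
noncomputable def cS (X : ℕ → Bool) (S i m : ℕ) : Bool :=
  decide (∃ s < S + 1, En s i.unpair.1 m (od X) ∧ ¬ En s i.unpair.2 m (od X))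

theorem cS_eq_cI {X : ℕ → Bool} {S i m t : ℕ} (h : kn X i t S = true) (hm : m < t) :
    cS X S i m = cI X i m := by
  unfold cS cI
  rw [decide_eq_decide]
  constructor
  · rintro ⟨s, -, hs⟩
    exact ⟨s, hs⟩
  · rintro ⟨s, h1, h2⟩
    by_cases hsS : s < S + 1
    · exact ⟨s, hsS, h1, h2⟩
    · have h3 : ¬ En S i.unpair.2 m (od X) := fun h => h2 (En_mono (by omega) h)
      exact ⟨S, Nat.lt_succ_self S, (kn_iff.1 h m hm).resolve_right h3, h3⟩

/-- the family of translations which change the first half of the oracle -/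
def DD (c : ℕ → ℕ → Bool) (k j : ℕ) : Bool := if j % 2 = 0 then t48_S c k (j / 2) k else false

theorem DD_xor (c : ℕ → ℕ → Bool) : IsGrp (DD c) := by
  intro j k i
  unfold DD
  split_ifs with h
  · have e1 := t48_S_ge c (j ^^^ k) (i / 2) (j ^^^ k) (max (max j k) (j ^^^ k)) Nat.lt_two_pow_self
      (le_max_right _ _)
    have e2 := t48_S_ge c j (i / 2) j (max (max j k) (j ^^^ k)) Nat.lt_two_pow_self
      ((le_max_left _ _).trans (le_max_left _ _))
    have e3 := t48_S_ge c k (i / 2) k (max (max j k) (j ^^^ k)) Nat.lt_two_pow_self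
      ((le_max_right _ _).trans (le_max_left _ _))
    rw [← e1, ← e2, ← e3, t48_S_xor]
  · rfl

theorem DD_odd (c : ℕ → ℕ → Bool) (k i : ℕ) : DD c k (2 * i + 1) = false := by
  unfold DD
  rw [if_neg (by omega)]

theorem DD_pow (c : ℕ → ℕ → Bool) (i j : ℕ) : DD c (2 ^ i) (2 * j) = c i j := by
  unfold DD
  rw [if_pos (by omega), show 2 * j / 2 = j by omega,
    t48_S_ge c (2 ^ i) j (i + 1) (2 ^ i) (Nat.pow_lt_pow_right (by norm_num) (Nat.lt_succ_self i))
      Nat.lt_two_pow_self, t48_S_succ, t48_S_pow_lt c i j i le_rfl, Nat.testBit_two_pow]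
  simp

theorem t48_congr {c c' : ℕ → ℕ → Bool} {k i N : ℕ}
    (h : ∀ b < N, k.testBit b = true → c b i = c' b i) : t48_S c k i N = t48_S c' k i N := by
  induction N with
  | zero => rfl
  | succ N ih =>
    rw [t48_S_succ, t48_S_succ, ih fun b hb => h b (by omega)]
    cases hk : k.testBit N with
    | false => rfl
    | true => rw [h N (by omega) hk]

theorem DD_congr {c c' : ℕ → ℕ → Bool} {k i : ℕ}
    (h : ∀ b, k.testBit b = true → c b (i / 2) = c' b (i / 2)) : DD c k i = DD c' k i := by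
  unfold DD
  rw [t48_congr fun b _ hb => h b hb]

/-- `z` is enumerated into the `n`-th set by stage `t` from the `k`-th translate -/
def EE (X : ℕ → Bool) (c : ℕ → ℕ → Bool) (t n z k : ℕ) : Prop := En t n z (sh (DD c) k X)

open Classical in
/-- the join of `X` and the set `v` -/
noncomputable def jp (X : ℕ → Bool) (v : ℕ → Prop) : ℕ → Bool :=
  fun i => if i % 2 = 0 then X (i / 2) else decide (v (i / 2))

theorem jp_congr {X Y : ℕ → Bool} {v v' : ℕ → Prop} {u : ℕ} (h1 : ∀ i < u, X i = Y i)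
    (h2 : ∀ y < u, (v y ↔ v' y)) : ∀ i < u, jp X v i = jp Y v' i := by
  intro i hi
  unfold jp
  split_ifs
  · exact h1 _ (by omega)
  · rw [decide_eq_decide]
    exact h2 _ (by omega)

/-- the `m`-th program halts within `t` steps with use `u` on a number of the column `a` -/
def CC (X : ℕ → Bool) (c : ℕ → ℕ → Bool) (t m a u k : ℕ) (v : ℕ → Prop) : Prop :=
  ∃ b < t + 1, b.unpair.1 = a ∧ hlt t m b (pre (jp (sh (DD c) k X) v) u) = true

/-- the history of the construction before stage `s` -/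
def Hs (X : ℕ → Bool) (c : ℕ → ℕ → Bool) (δ : ℕ → List Bool) : ℕ → ℕ → ℕ → ℕ → Prop
  | 0 => fun _ _ _ => False
  | s + 1 => fun s' k z => Hs X c δ s s' k z ∨
      (s' = s ∧ Step (EE X c) (CC X c) δ (VV (Hs X c δ s)) s k z)

/-- `z` is put into the set of index `k` at stage `s` -/
def Ac (X : ℕ → Bool) (c : ℕ → ℕ → Bool) (δ : ℕ → List Bool) (s k z : ℕ) : Prop :=
  Step (EE X c) (CC X c) δ (VV (Hs X c δ s)) s k z

theorem Hs_iff {X : ℕ → Bool} {c : ℕ → ℕ → Bool} {δ : ℕ → List Bool} {s s' k z : ℕ} :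
    Hs X c δ s s' k z ↔ s' < s ∧ Ac X c δ s' k z := by
  induction s with
  | zero => simp [Hs]
  | succ s ih =>
    show (Hs X c δ s s' k z ∨ (s' = s ∧ Step (EE X c) (CC X c) δ (VV (Hs X c δ s)) s k z)) ↔ _
    rw [ih]
    constructor
    · rintro (h | ⟨h1, h2⟩)
      · exact ⟨by omega, h.2⟩
      · subst h1
        exact ⟨Nat.lt_succ_self _, h2⟩
    · rintro ⟨h1, h2⟩
      rcases Nat.lt_succ_iff_lt_or_eq.1 h1 with h | h
      · exact Or.inl ⟨h, h2⟩
      · subst h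
        exact Or.inr ⟨rfl, h2⟩

theorem sh_agree {D : ℕ → ℕ → Bool} {k u : ℕ} {X Y : ℕ → Bool} {D' : ℕ → ℕ → Bool} {k' : ℕ}
    (h1 : ∀ i < u, X i = Y i) (h2 : ∀ i < u, D k i = D' k' i) :
    ∀ i < u, sh D k X i = sh D' k' Y i := by
  intro i hi
  unfold sh
  rw [h1 i hi, h2 i hi]

theorem EE_congr {X Y : ℕ → Bool} {c c' : ℕ → ℕ → Bool} {t n z k k' : ℕ}
    (h : ∀ i < t, sh (DD c) k X i = sh (DD c') k' Y i) :
    EE X c t n z k ↔ EE Y c' t n z k' := En_congr h

theorem CC_congr {X Y : ℕ → Bool} {c c' : ℕ → ℕ → Bool} {t m a u k k' : ℕ} {v v' : ℕ → Prop}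
    (h : ∀ i < u, sh (DD c) k X i = sh (DD c') k' Y i) (hv : ∀ y < u, (v y ↔ v' y)) :
    CC X c t m a u k v ↔ CC Y c' t m a u k' v' := by
  unfold CC
  refine exists_congr fun b => and_congr_right fun _ => and_congr_right fun _ => ?_
  rw [T03_pre (jp_congr h hv) le_rfl]

theorem Ac_eq (X : ℕ → Bool) (c : ℕ → ℕ → Bool) (δ : ℕ → List Bool) (s k z : ℕ) :
    Ac X c δ s k z ↔ Step (EE X c) (CC X c) δ (VV (Ac X c δ)) s k z := by
  have hag : ∀ n < s, ∀ t, IsPrv δ s n t → ∀ j < 2 ^ n, Sub n j (δ s) →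
      Agr (EE X c) (CC X c) (VV (Hs X c δ s)) (EE X c) (CC X c) (VV (Ac X c δ)) t (k ^^^ j)
        (k ^^^ j) := by
    intro n _ t hp j _ _
    have h3 : ∀ y, VV (Hs X c δ s) t (k ^^^ j) y ↔ VV (Ac X c δ) t (k ^^^ j) y := by
      intro y
      refine exists_congr fun q => and_congr_right fun hq => ?_
      rw [Hs_iff]
      have := hp.1
      exact ⟨fun h => h.2, fun h => ⟨by omega, h⟩⟩
    exact ⟨fun n z => Iff.rfl, fun m c' u hu => CC_congr (fun _ _ => rfl) (fun y _ => h3 y), h3⟩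
  constructor
  · exact step_comp hag
  · exact step_comp fun n hn t hp j hj hsub => (hag n hn t hp j hj hsub).symm

/-- `z` is put into the set of index `k` at stage `s` of the construction for `X` -/
def AA (X : ℕ → Bool) : ℕ → ℕ → ℕ → Prop := Ac X (cI X) (dl (kn X))

theorem sys (X : ℕ → Bool) :
    Sys (EE X (cI X)) (CC X (cI X)) (dl (kn X)) (AA X) (TP (kn X)) where
  hA := Ac_eq X (cI X) (dl (kn X))
  len := dl_length (kn X)
  inf n s0 := by
    obtain ⟨s, h1, -, h2⟩ := (path (kn X) (kn_mono X) n).1 s0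
    exact ⟨s, h1, h2⟩
  left n := (path (kn X) (kn_mono X) n).2
  monoE t t' n z k h hE := En_mono h hE
  locC t t' m a u k v v' hC ht hu hv := by
    obtain ⟨b, hb, hba, hh⟩ := (CC_congr (fun _ _ => rfl) hv).1 hC
    exact ⟨b, by omega, hba, hlt_mono ht hh⟩

theorem od_sh (X : ℕ → Bool) (c : ℕ → ℕ → Bool) (k : ℕ) : od (sh (DD c) k X) = od X := by
  funext i
  unfold od sh
  rw [DD_odd, Bool.xor_false]

/-- The construction for a translate of `X`. -/
theorem AA_sh (X : ℕ → Bool) (j k s z : ℕ) :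
    AA (sh (DD (cI X)) j X) s k z ↔ AA X s (k ^^^ j) z := by
  have h1 : cI (sh (DD (cI X)) j X) = cI X := by
    unfold cI
    rw [od_sh]
  have h2 : kn (sh (DD (cI X)) j X) = kn X := by
    unfold kn
    rw [od_sh]
  have h3 : ∀ k, sh (DD (cI X)) k (sh (DD (cI X)) j X) = sh (DD (cI X)) (k ^^^ j) X :=
    fun k => sh_sh (DD_xor _) k j X
  unfold AA
  rw [h1, h2]
  refine comp_A (S := s + 1) (R := fun _ k k' => k' = k ^^^ j)
    (A := Ac (sh (DD (cI X)) j X) (cI X) (dl (kn X))) (A' := Ac X (cI X) (dl (kn X)))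
    (fun s _ k _ _ z => Ac_eq _ _ _ s k z) (fun s _ _ k' _ z => Ac_eq _ _ _ s k' z)
    (fun _ _ _ _ h _ => h) ?_ ?_ ?_ s (Nat.lt_succ_self s) k (k ^^^ j) rfl z
  · intro s _ n _ t k k' j' h _ _ _
    rw [h, Nat.xor_assoc, Nat.xor_assoc, Nat.xor_comm j j']
  · intro t _ k k' h n z
    refine EE_congr fun i _ => ?_
    rw [h3, h]
  · intro t _ k k' h m a u v v' _ hv
    refine CC_congr (fun i _ => ?_) (fun y _ => hv y)
    rw [h3, h]

end Pool.Agent.TH769.CD
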