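import Pool.Agent.TH769.CD.Dl

set_option autoImplicit false

/-!
The combinatorial core of the construction: a family of sets indexed by the translations, built
along a tree of guesses.
-/

namespace Pool.Agent.TH769.CD

open Encodable Pool.Agent.Helper227

/-- The bits of `j` below `n` are among the bits of the string. -/
def Sub (n j : ℕ) (π : List Bool) : Prop := ∀ i < n, j.testBit i = true → π.getD i false = true

/-- `t` is the last stage before `s` with the same guesses below `n`. -/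
def IsPrv (δ : ℕ → List Bool) (s n t : ℕ) : Prop :=
  t < s ∧ (δ t).take n = (δ s).take n ∧ ∀ t' < s, t < t' → (δ t').take n ≠ (δ s).take n

/-- If there is a computation then there is one with use at most `z`. -/
def Ok (C : ℕ → ℕ → ℕ → ℕ → ℕ → (ℕ → Prop) → Prop) (t m c z k : ℕ) (v : ℕ → Prop) : Prop :=
  (∃ u < t + 1, C t m c u k v) → ∃ u < z + 1, u < t + 1 ∧ C t m c u k v

def Cand (E : ℕ → ℕ → ℕ → ℕ → Prop) (C : ℕ → ℕ → ℕ → ℕ → ℕ → (ℕ → Prop) → Prop)
    (δ : ℕ → List Bool) (V : ℕ → ℕ → ℕ → Prop) (s n k z : ℕ) : Prop :=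
  z < s ∧ z.unpair.1 = encode ((δ s).take n) ∧ (∀ u < s, Left (δ u) ((δ s).take n) → u < z) ∧
  ∃ t < s, IsPrv δ s n t ∧
    (∃ j < 2 ^ n, Sub n j (δ s) ∧ E t n z (k ^^^ j) ∧
      ∀ y < t, V t (k ^^^ j) y → ¬ E t n y (k ^^^ j)) ∧
    ∀ m < n + 1, ∀ j < 2 ^ n, Sub n j (δ s) →
      Ok C t m (encode ((δ s).take m)) z (k ^^^ j) (V t (k ^^^ j))

def Veto (C : ℕ → ℕ → ℕ → ℕ → ℕ → (ℕ → Prop) → Prop)
    (δ : ℕ → List Bool) (V : ℕ → ℕ → ℕ → Prop) (s n k z : ℕ) : Prop :=
  ∀ m < n + 1, ∀ t < s, IsPrv δ s m t → ∀ j < 2 ^ m, Sub m j (δ s) →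
    Ok C t m (encode ((δ s).take m)) z (k ^^^ j) (V t (k ^^^ j))

/-- the `n`-th requirement puts `z` into the set of index `k` at stage `s` -/
def Act (E : ℕ → ℕ → ℕ → ℕ → Prop) (C : ℕ → ℕ → ℕ → ℕ → ℕ → (ℕ → Prop) → Prop)
    (δ : ℕ → List Bool) (V : ℕ → ℕ → ℕ → Prop) (s n k z : ℕ) : Prop :=
  Cand E C δ V s n k z ∧ (∀ z' < z, ¬ Cand E C δ V s n k z') ∧ Veto C δ V s n k z

def Step (E : ℕ → ℕ → ℕ → ℕ → Prop) (C : ℕ → ℕ → ℕ → ℕ → ℕ → (ℕ → Prop) → Prop)
    (δ : ℕ → List Bool) (V : ℕ → ℕ → ℕ → Prop) (s k z : ℕ) : Prop :=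
  ∃ n < s, Act E C δ V s n k z

/-- the set of index `k` after stage `t` -/
def VV (A : ℕ → ℕ → ℕ → Prop) (t k z : ℕ) : Prop := ∃ s < t + 1, A s k z

structure Sys (E : ℕ → ℕ → ℕ → ℕ → Prop) (C : ℕ → ℕ → ℕ → ℕ → ℕ → (ℕ → Prop) → Prop)
    (δ : ℕ → List Bool) (A : ℕ → ℕ → ℕ → Prop) (tp : ℕ → Bool) : Prop where
  hA : ∀ s k z, A s k z ↔ Step E C δ (VV A) s k z
  len : ∀ s, (δ s).length = s
  inf : ∀ n s0, ∃ s ≥ s0, (δ s).take n = pre tp n
  left : ∀ n, ∃ s0, ∀ s ≥ s0, ¬ Left (δ s) (pre tp n)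
  monoE : ∀ t t' n z k, t ≤ t' → E t n z k → E t' n z k
  locC : ∀ t t' m c u k v v', C t m c u k v → t ≤ t' → u ≤ t → (∀ y < u, (v y ↔ v' y)) →
    C t' m c u k v'

theorem bdd_lt (N : ℕ) (P : ℕ → ℕ → Prop) (h : ∀ i < N, ∃ a, ∀ b ≥ a, P i b) :
    ∃ a, ∀ i < N, ∀ b ≥ a, P i b := by
  induction N with
  | zero => exact ⟨0, fun i hi => absurd hi (Nat.not_lt_zero _)⟩
  | succ N ih =>
    obtain ⟨a, ha⟩ := ih fun i hi => h i (by omega)
    obtain ⟨b, hb⟩ := h N (by omega)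
    refine ⟨max a b, fun i hi c hc => ?_⟩
    rcases Nat.lt_succ_iff_lt_or_eq.1 hi with h1 | h1
    · exact ha i h1 c ((le_max_left _ _).trans hc)
    · subst h1
      exact hb c ((le_max_right _ _).trans hc)

theorem prv_exists {δ : ℕ → List Bool} {s t n : ℕ} (h : (δ t).take n = (δ s).take n)
    (hts : t < s) : ∃ t', IsPrv δ s n t' ∧ t ≤ t' := by
  have h1 : t ≤ s - 1 := by omega
  have h2 := Nat.findGreatest_le (P := fun x => (δ x).take n = (δ s).take n) (s - 1)
  have h3 := Nat.findGreatest_spec (P := fun x => (δ x).take n = (δ s).take n) h1 h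
  have h4 := Nat.le_findGreatest (P := fun x => (δ x).take n = (δ s).take n) h1 h
  refine ⟨Nat.findGreatest (fun x => (δ x).take n = (δ s).take n) (s - 1),
    ⟨by omega, h3, fun t' ht' hlt => ?_⟩, h4⟩
  exact Nat.findGreatest_is_greatest (P := fun x => (δ x).take n = (δ s).take n) hlt (by omega)

theorem prv_unique {δ : ℕ → List Bool} {s t t' n : ℕ} (h : IsPrv δ s n t) (h' : IsPrv δ s n t') :
    t = t' := by
  rcases lt_trichotomy t t' with h1 | h1 | h1
  · exact absurd h'.2.1 (h.2.2 t' h'.1 h1)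
  · exact h1
  · exact absurd h.2.1 (h'.2.2 t h.1 h1)

theorem prv_ge {δ : ℕ → List Bool} {s t t' n : ℕ} (h : IsPrv δ s n t) (h1 : t' < s)
    (h2 : (δ t').take n = (δ s).take n) : t' ≤ t := by
  by_contra hc
  exact h.2.2 t' h1 (by omega) h2

theorem take_mono {a b : List Bool} {m n : ℕ} (hmn : m ≤ n) (h : a.take n = b.take n) :
    a.take m = b.take m := by
  have := congrArg (List.take m) h
  rwa [List.take_take, List.take_take, min_eq_left hmn] at this

theorem sub_xor {n j j' : ℕ} {π : List Bool} (h : Sub n j π) (h' : Sub n j' π) :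
    Sub n (j ^^^ j') π := by
  intro i hi hb
  rw [Nat.testBit_xor] at hb
  cases hj : j.testBit i with
  | true => exact h i hi hj
  | false =>
    cases hj' : j'.testBit i with
    | true => exact h' i hi hj'
    | false => rw [hj, hj'] at hb; exact absurd hb (by simp)

theorem sub_zero (n : ℕ) (π : List Bool) : Sub n 0 π := by
  intro i _ h
  rw [Nat.zero_testBit] at h
  exact absurd h (by simp)

theorem sub_up {m n j : ℕ} {π : List Bool} (hj : j < 2 ^ m) (h : Sub m j π) : Sub n j π := by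
  intro i _ hb
  refine h i ?_ hb
  by_contra hc
  rw [Nat.testBit_lt_two_pow (hj.trans_le (Nat.pow_le_pow_right (by norm_num) (by omega)))] at hb
  exact absurd hb (by simp)

theorem xor_cancel (k j j' : ℕ) : (k ^^^ j) ^^^ (j ^^^ j') = k ^^^ j' := by
  rw [Nat.xor_assoc, ← Nat.xor_assoc j j j', Nat.xor_self, Nat.zero_xor]

section

variable {E : ℕ → ℕ → ℕ → ℕ → Prop} {C : ℕ → ℕ → ℕ → ℕ → ℕ → (ℕ → Prop) → Prop}
  {δ : ℕ → List Bool} {A : ℕ → ℕ → ℕ → Prop} {tp : ℕ → Bool} {V : ℕ → ℕ → ℕ → Prop}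

theorem cand_xor1 {s n k z j : ℕ} (hj : j < 2 ^ n) (hs : Sub n j (δ s))
    (h : Cand E C δ V s n (k ^^^ j) z) : Cand E C δ V s n k z := by
  obtain ⟨h1, h2, h3, t, ht, hp, ⟨j', hj', hs', hE, hy⟩, hok⟩ := h
  refine ⟨h1, h2, h3, t, ht, hp, ⟨j ^^^ j', Nat.xor_lt_two_pow hj hj', sub_xor hs hs', ?_, ?_⟩, ?_⟩
  · rwa [← Nat.xor_assoc]
  · rwa [← Nat.xor_assoc]
  · intro m hm j'' hj'' hs''
    have := hok m hm (j ^^^ j'') (Nat.xor_lt_two_pow hj hj'') (sub_xor hs hs'')
    rwa [xor_cancel] at this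

theorem cand_xor {s n k z j : ℕ} (hj : j < 2 ^ n) (hs : Sub n j (δ s)) :
    Cand E C δ V s n (k ^^^ j) z ↔ Cand E C δ V s n k z := by
  refine ⟨cand_xor1 hj hs, fun h => cand_xor1 (j := j) hj hs ?_⟩
  rwa [Nat.xor_assoc, Nat.xor_self, Nat.xor_zero]

theorem stage_le (hS : Sys E C δ A tp) {n s : ℕ} (h : (δ s).take n = pre tp n) : n ≤ s := by
  have := congrArg List.length h
  rw [List.length_take, hS.len, length_pre] at this
  omega

theorem stage_down {m n : ℕ} {σ : List Bool} (hmn : m ≤ n) (h : σ.take n = pre tp n) :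
    σ.take m = pre tp m := by
  have := congrArg (List.take m) h
  rwa [List.take_take, min_eq_left hmn, take_pre _ _ _ hmn] at this

/-- From some stage on the requirement `n` has no candidate. -/
def NC (E : ℕ → ℕ → ℕ → ℕ → Prop) (C : ℕ → ℕ → ℕ → ℕ → ℕ → (ℕ → Prop) → Prop)
    (δ : ℕ → List Bool) (A : ℕ → ℕ → ℕ → Prop) (tp : ℕ → Bool) (n : ℕ) : Prop :=
  ∀ k, ∃ s0, ∀ s ≥ s0, (δ s).take n = pre tp n → ∀ z, ¬ Cand E C δ (VV A) s n k z

/-- Small elements put in late come from the nodes above the true path. -/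
theorem late (hS : Sys E C δ A tp) (m : ℕ) (h : ∀ n < m, NC E C δ A tp n) (k : ℕ) :
    ∃ s1, ∀ t ≥ s1, (δ t).take m = pre tp m → ∀ q > t, ∀ n' < q, ∀ z ≤ t,
      Act E C δ (VV A) q n' k z → pre tp m <+: (δ q).take n' := by
  obtain ⟨a, ha⟩ := bdd_lt m (fun n s => (δ s).take n = pre tp n →
    ∀ z, ¬ Cand E C δ (VV A) s n k z) (fun n hn => h n hn k)
  obtain ⟨b, hb⟩ := hS.left m
  refine ⟨max a b, fun t ht hst q hq n' hn' z hz hact => ?_⟩
  have h1 : a ≤ t := (le_max_left _ _).trans ht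
  have h2 : b ≤ t := (le_max_right _ _).trans ht
  have hlen : ((δ q).take n').length = n' := by
    rw [List.length_take, hS.len]; omega
  rcases tri ((δ q).take n') (pre tp m) with h3 | h3 | h3 | h3
  · have h4 := pre_eq_of_prefix h3
    rw [hlen] at h4
    have h5 : n' ≤ m := by
      have := h3.length_le
      rwa [hlen, length_pre] at this
    rcases h5.eq_or_lt with h6 | h6
    · subst h6
      rw [h4]
    · exact absurd hact.1 (ha n' h6 q (by omega) h4 z)
  · exact h3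
  · exact absurd (left_of_take h3) (hb q (by omega))
  · rw [← hst] at h3
    have h4 := hact.1.2.2.1 t hq (left_of_take h3)
    omega

theorem stage_of_pre (hS : Sys E C δ A tp) {m n q : ℕ} (hn : n < q)
    (h : pre tp m <+: (δ q).take n) : m ≤ n ∧ (δ q).take m = pre tp m := by
  have h1 : m ≤ n := by
    have := h.length_le
    rw [length_pre, List.length_take, hS.len] at this
    omega
  refine ⟨h1, ?_⟩
  have h2 := List.prefix_iff_eq_take.1 h
  rw [length_pre, List.take_take, min_eq_left h1] at h2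
  exact h2.symm

/-- Along the true path the uses of the computations eventually do not increase. -/
theorem okstep (hS : Sys E C δ A tp) (m : ℕ) (h : ∀ n < m, NC E C δ A tp n) (k : ℕ) :
    ∃ s1, ∀ t ≥ s1, (δ t).take m = pre tp m → ∀ s ≥ t, (δ s).take m = pre tp m → ∀ z,
      Ok C t m (encode (pre tp m)) z k (VV A t k) →
        Ok C s m (encode (pre tp m)) z k (VV A s k) := by
  classical
  obtain ⟨s1, hs1⟩ := late hS m h k
  have step : ∀ t ≥ s1, ∀ s, (δ t).take m = pre tp m → (δ s).take m = pre tp m →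
      IsPrv δ s m t → ∀ u < t + 1, C t m (encode (pre tp m)) u k (VV A t k) →
      (∀ u' < u, ¬ C t m (encode (pre tp m)) u' k (VV A t k)) →
      C s m (encode (pre tp m)) u k (VV A s k) := by
    intro t ht s hst hss hp u hu hC hmin
    have hts := hp.1
    refine hS.locC t s m _ u k _ _ hC hts.le (by omega) (fun y hy => ⟨?_, ?_⟩)
    · rintro ⟨q, hq, hAq⟩
      exact ⟨q, by omega, hAq⟩
    · rintro ⟨q, hq, hAq⟩
      by_cases hqt : q < t + 1
      · exact ⟨q, hqt, hAq⟩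
      exfalso
      obtain ⟨n', hn', hact⟩ := (hS.hA q k y).1 hAq
      have hpre := hs1 t ht hst q (by omega) n' hn' y (by omega) hact
      obtain ⟨hmn, hq'⟩ := stage_of_pre hS hn' hpre
      have hqs : q = s := by
        by_contra hne
        exact hp.2.2 q (by omega) (by omega) (by rw [hq', hss])
      subst hqs
      have hv := hact.2.2 m (by omega) t hts hp 0 (by positivity) (sub_zero _ _)
      rw [hss, Nat.xor_zero] at hv
      obtain ⟨u', hu', hu'', hC'⟩ := hv ⟨u, hu, hC⟩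
      exact hmin u' (by omega) hC'
  have chain : ∀ t ≥ s1, (δ t).take m = pre tp m → ∀ s, t ≤ s → (δ s).take m = pre tp m → ∀ z,
      (∃ u < z + 1, u < t + 1 ∧ C t m (encode (pre tp m)) u k (VV A t k)) →
      ∃ u < z + 1, u < s + 1 ∧ C s m (encode (pre tp m)) u k (VV A s k) := by
    intro t ht hst s
    induction s using Nat.strong_induction_on with
    | _ s ih =>
      intro hts hss z hz
      rcases hts.eq_or_lt with h1 | h1
      · subst h1
        exact hz
      · obtain ⟨t', hp, htt'⟩ := prv_exists (δ := δ) (n := m) (by rw [hst, hss]) h1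
        have hst' : (δ t').take m = pre tp m := by rw [hp.2.1, hss]
        have hts' := hp.1
        obtain ⟨u, hu1, hu2, hu3⟩ := ih t' hp.1 htt' hst' z hz
        have hex : ∃ u, C t' m (encode (pre tp m)) u k (VV A t' k) := ⟨u, hu3⟩
        have hle : Nat.find hex ≤ u := Nat.find_min' hex hu3
        exact ⟨Nat.find hex, by omega, by omega, step t' (by omega) s hst' hss hp _ (by omega)
          (Nat.find_spec hex) (fun u' h' => Nat.find_min hex h')⟩
  by_cases hcase : ∃ t1 ≥ s1, (δ t1).take m = pre tp m ∧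
      ∃ u < t1 + 1, C t1 m (encode (pre tp m)) u k (VV A t1 k)
  · obtain ⟨t1, h1, h2, u1, h3, h4⟩ := hcase
    refine ⟨t1, fun t ht hst s hs hss z hok _ => ?_⟩
    obtain ⟨u, a, b, c⟩ := chain t1 h1 h2 t ht hst u1 ⟨u1, by omega, h3, h4⟩
    exact chain t (by omega) hst s hs hss z (hok ⟨u, b, c⟩)
  · refine ⟨s1, fun t ht hst s hs hss z _ hex => ?_⟩
    obtain ⟨u, hu, hC⟩ := hex
    exact absurd ⟨s, by omega, hss, u, hu, hC⟩ hcase

theorem okbound (hS : Sys E C δ A tp) (m : ℕ) (h : ∀ n < m, NC E C δ A tp n) (k : ℕ) :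
    ∃ R, ∀ z ≥ R, ∀ s, (δ s).take m = pre tp m →
      Ok C s m (encode (pre tp m)) z k (VV A s k) := by
  obtain ⟨s1, hs1⟩ := okstep hS m h k
  obtain ⟨t0, ht0, hst0⟩ := hS.inf m s1
  refine ⟨t0, fun z hz s hs => ?_⟩
  rintro ⟨u, hu, hC⟩
  by_cases hlt : s < t0
  · exact ⟨u, by omega, hu, hC⟩
  · obtain ⟨u', hu', hu'', hC'⟩ := hs1 t0 ht0 hst0 s (by omega) hs t0
      (fun ⟨u, hu, hC⟩ => ⟨u, hu, hu, hC⟩) ⟨u, hu, hC⟩
    exact ⟨u', by omega, hu'', hC'⟩

theorem nc (hS : Sys E C δ A tp) (n : ℕ) : NC E C δ A tp n := by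
  classical
  induction n using Nat.strong_induction_on with
  | _ n ih =>
    intro k
    obtain ⟨T, hT⟩ := bdd_lt (n + 1) (fun m t => ∀ j < 2 ^ n, (δ t).take m = pre tp m →
      ∀ s ≥ t, (δ s).take m = pre tp m → ∀ z,
        Ok C t m (encode (pre tp m)) z (k ^^^ j) (VV A t (k ^^^ j)) →
          Ok C s m (encode (pre tp m)) z (k ^^^ j) (VV A s (k ^^^ j))) (fun m hm => by
        obtain ⟨a, ha⟩ := bdd_lt (2 ^ n) (fun j t => (δ t).take m = pre tp m →
          ∀ s ≥ t, (δ s).take m = pre tp m → ∀ z,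
            Ok C t m (encode (pre tp m)) z (k ^^^ j) (VV A t (k ^^^ j)) →
              Ok C s m (encode (pre tp m)) z (k ^^^ j) (VV A s (k ^^^ j)))
          (fun j _ => okstep hS m (fun n' hn' => ih n' (by omega)) (k ^^^ j))
        exact ⟨a, fun b hb j hj => ha j hj b hb⟩)
    obtain ⟨t1, ht1, hst1⟩ := hS.inf n T
    let Bad : Set ℕ := {s | (δ s).take n = pre tp n ∧ (∃ t, IsPrv δ s n t ∧ T ≤ t) ∧
      ∃ z, Cand E C δ (VV A) s n k z}
    have key : ∀ s, ∃ j, s ∈ Bad → j < 2 ^ n ∧ ∃ z0 t, IsPrv δ s n t ∧ E t n z0 (k ^^^ j) ∧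
        A s (k ^^^ j) z0 ∧ z0 < s ∧
        ∀ y < t, VV A t (k ^^^ j) y → ¬ E t n y (k ^^^ j) := by
      intro s
      by_cases hs : s ∈ Bad
      · obtain ⟨hst, ⟨t, hp, hTt⟩, hz⟩ := hs
        have hmin : ∀ z' < Nat.find hz, ¬ Cand E C δ (VV A) s n k z' :=
          fun z' h' => Nat.find_min hz h'
        have hc := Nat.find_spec hz
        generalize Nat.find hz = z0 at hmin hc
        have hc0 := hc
        obtain ⟨h1, h2, h3, t', ht', hp', ⟨j, hj, hsub, hE, hy⟩, hok⟩ := hc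
        have htt := prv_unique hp' hp
        subst htt
        have hnt : n ≤ t' := stage_le hS (by rw [hp.2.1, hst])
        refine ⟨j, fun _ => ⟨hj, z0, t', hp, hE, ?_, h1, hy⟩⟩
        rw [hS.hA]
        refine ⟨n, by omega, (cand_xor hj hsub).2 hc0,
          fun z' hz' hc' => hmin z' hz' ((cand_xor hj hsub).1 hc'), ?_⟩
        intro m hm t'' ht'' hp'' j' hj' hsub'
        have hle : t' ≤ t'' := prv_ge hp'' hp.1 (take_mono (by omega) hp.2.1)
        have hj2 : j' < 2 ^ n := hj'.trans_le (Nat.pow_le_pow_right (by norm_num) (by omega))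
        have hsm : (δ s).take m = pre tp m := stage_down (by omega) hst
        have h5 := hok m hm (j ^^^ j') (Nat.xor_lt_two_pow hj hj2)
          (sub_xor hsub (sub_up hj' hsub'))
        rw [hsm] at h5 ⊢
        rw [Nat.xor_assoc]
        exact hT m hm t' hTt (j ^^^ j') (Nat.xor_lt_two_pow hj hj2)
          (stage_down (show m ≤ n by omega) (by rw [hp.2.1, hst])) t'' hle
          (by rw [hp''.2.1, hsm]) z0 h5
      · exact ⟨0, fun h => absurd h hs⟩
    choose f hf using key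
    have hne : ∀ s s', s ∈ Bad → s' ∈ Bad → s < s' → f s ≠ f s' := by
      intro s s' hs hs' hss he
      obtain ⟨-, z0, t, hp, hE, hA1, hz0, -⟩ := hf s hs
      obtain ⟨-, z0', t', hp', -, -, -, hy'⟩ := hf s' hs'
      rw [← he] at hy'
      have h1 : s ≤ t' := prv_ge hp' hss (by rw [hs.1, hs'.1])
      have h2 := hp.1
      exact hy' z0 (by omega) ⟨s, by omega, hA1⟩ (hS.monoE t t' n z0 _ (by omega) hE)
    have hinj : Set.InjOn f Bad := by
      intro s hs s' hs' he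
      by_contra hn
      rcases lt_or_gt_of_ne hn with h | h
      · exact hne s s' hs hs' h he
      · exact hne s' s hs' hs h he.symm
    have hmaps : Set.MapsTo f Bad ((Finset.range (2 ^ n) : Finset ℕ) : Set ℕ) := by
      intro s hs
      exact Finset.mem_coe.2 (Finset.mem_range.2 (hf s hs).1)
    have hfin : Bad.Finite := Set.Finite.of_injOn hmaps hinj (Finset.finite_toSet _)
    obtain ⟨b, hb⟩ := hfin.bddAbove
    refine ⟨max (b + 1) (t1 + 1), fun s hs hst z hz => ?_⟩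
    have h1 : b + 1 ≤ s := (le_max_left _ _).trans hs
    have h2 : t1 + 1 ≤ s := (le_max_right _ _).trans hs
    obtain ⟨t, hp, hle⟩ := prv_exists (δ := δ) (s := s) (t := t1) (n := n) (by rw [hst, hst1])
      (by omega)
    have h3 : s ∈ Bad := ⟨hst, ⟨t, hp, by omega⟩, z, hz⟩
    have h4 := hb h3
    omega

/-- The complement of the set is not the `n`-th set. -/
theorem pos (hS : Sys E C δ A tp) (n : ℕ) (h1 : ∀ z, (∀ s, ¬ A s 0 z) → ∃ t, E t n z 0)
    (h2 : ∀ z s, A s 0 z → ∀ t, ¬ E t n z 0) : False := by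
  obtain ⟨s0, hs0⟩ := nc hS n 0
  obtain ⟨b, hb⟩ := hS.left n
  obtain ⟨R, hR⟩ := bdd_lt (n + 1) (fun m z => ∀ j < 2 ^ n, ∀ s, (δ s).take m = pre tp m →
      Ok C s m (encode (pre tp m)) z (0 ^^^ j) (VV A s (0 ^^^ j))) (fun m _ => by
    obtain ⟨a, ha⟩ := bdd_lt (2 ^ n) (fun j z => ∀ s, (δ s).take m = pre tp m →
      Ok C s m (encode (pre tp m)) z (0 ^^^ j) (VV A s (0 ^^^ j)))
      (fun j _ => okbound hS m (fun n' _ => nc hS n') (0 ^^^ j))
    exact ⟨a, fun b hb j hj => ha j hj b hb⟩)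
  obtain ⟨z, hzc, hz⟩ : ∃ z, z.unpair.1 = encode (pre tp n) ∧ max (max s0 b) R ≤ z :=
    ⟨Nat.pair (encode (pre tp n)) (max (max s0 b) R), by rw [Nat.unpair_pair],
      Nat.right_le_pair _ _⟩
  have hz1 : s0 ≤ z := ((le_max_left s0 b).trans (le_max_left _ _)).trans hz
  have hz2 : b ≤ z := ((le_max_right s0 b).trans (le_max_left _ _)).trans hz
  have hz3 : R ≤ z := (le_max_right _ _).trans hz
  have hzV : ∀ s, ¬ A s 0 z := by
    intro s hs
    obtain ⟨n', hn', hact⟩ := (hS.hA s 0 z).1 hs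
    have h3 := hact.1.2.1
    rw [hzc] at h3
    have h4 := encode_injective h3
    have h5 : n' = n := by
      have := congrArg List.length h4
      rw [length_pre, List.length_take, hS.len] at this
      omega
    subst h5
    exact hs0 s (by have := hact.1.1; omega) h4.symm z hact.1
  obtain ⟨t0, ht0⟩ := h1 z hzV
  obtain ⟨t1, h11, hst1⟩ := hS.inf n (max t0 (z + 1))
  obtain ⟨s, hss, hst⟩ := hS.inf n (t1 + 1)
  obtain ⟨t, hp, ht⟩ := prv_exists (δ := δ) (s := s) (t := t1) (n := n) (by rw [hst, hst1])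
    (by omega)
  have h12 : t0 ≤ t1 := (le_max_left _ _).trans h11
  have h13 : z + 1 ≤ t1 := (le_max_right _ _).trans h11
  have hp1 := hp.1
  have hnt : n ≤ t1 := stage_le hS hst1
  refine hs0 s (by omega) hst z ⟨by omega, by rw [hst, hzc], fun u hu hL => ?_, t, hp.1, hp,
    ⟨0, by positivity, sub_zero _ _, hS.monoE t0 t n z 0 (by omega) ht0, fun y hy hV => ?_⟩,
    fun m hm j hj _ => ?_⟩
  · rw [hst] at hL
    by_contra hc
    exact hb u (by omega) hL
  · obtain ⟨q, -, hq⟩ := hV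
    exact h2 y q hq t
  · have hsm : (δ s).take m = pre tp m := stage_down (by omega) hst
    rw [hsm]
    exact hR m hm z hz3 j hj t (stage_down (show m ≤ n by omega) (by rw [hp.2.1, hst]))

/-- Invariance for the elements of the columns above the guess that the bit `j` is total. -/
theorem inv1 (hS : Sys E C δ A tp) (j : ℕ) (hj : tp j = true) (k : ℕ) :
    ∃ M, ∀ z ≥ M, ∀ s, ∀ n < s, pre tp (j + 1) <+: (δ s).take n →
      Act E C δ (VV A) s n k z → Act E C δ (VV A) s n (k ^^^ 2 ^ j) z := by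
  obtain ⟨R, hR⟩ := bdd_lt (j + 1) (fun m z => ∀ j' < 2 ^ m, ∀ s, (δ s).take m = pre tp m →
      Ok C s m (encode (pre tp m)) z (k ^^^ 2 ^ j ^^^ j') (VV A s (k ^^^ 2 ^ j ^^^ j')))
      (fun m _ => by
    obtain ⟨a, ha⟩ := bdd_lt (2 ^ m) (fun j' z => ∀ s, (δ s).take m = pre tp m →
      Ok C s m (encode (pre tp m)) z (k ^^^ 2 ^ j ^^^ j') (VV A s (k ^^^ 2 ^ j ^^^ j')))
      (fun j' _ => okbound hS m (fun n' _ => nc hS n') (k ^^^ 2 ^ j ^^^ j'))
    exact ⟨a, fun b hb j hj => ha j hj b hb⟩)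
  refine ⟨R, fun z hz s n hn hpre hact => ?_⟩
  obtain ⟨hjn, hst⟩ := stage_of_pre hS hn hpre
  have hbit : (δ s).getD j false = true := by
    have h1 : ((δ s).take (j + 1)).getD j false = true := by
      rw [hst, pre_getD _ _ _ _ (Nat.lt_succ_self j)]
      exact hj
    rwa [List.getD_eq_getElem?_getD, List.getElem?_take, if_pos (Nat.lt_succ_self j),
      ← List.getD_eq_getElem?_getD] at h1
  have hsub : ∀ m, Sub m (2 ^ j) (δ s) := by
    intro m i _ hb
    rw [Nat.testBit_two_pow] at hb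
    have : j = i := by simpa using hb
    rw [← this]
    exact hbit
  have hlt : ∀ m, j < m → 2 ^ j < 2 ^ m := fun m hm => Nat.pow_lt_pow_right (by norm_num) hm
  refine ⟨(cand_xor (hlt n (by omega)) (hsub n)).2 hact.1,
    fun z' hz' hc => hact.2.1 z' hz' ((cand_xor (hlt n (by omega)) (hsub n)).1 hc), ?_⟩
  intro m hm t ht hp j' hj' hs'
  by_cases hmj : j < m
  · have := hact.2.2 m hm t ht hp (2 ^ j ^^^ j') (Nat.xor_lt_two_pow (hlt m hmj) hj')
      (sub_xor (hsub m) hs')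
    rwa [← Nat.xor_assoc] at this
  · have hsm : (δ s).take m = pre tp m := stage_down (by omega) hst
    rw [hsm]
    exact hR m (by omega) z hz j' hj' t (by rw [hp.2.1, hsm])

theorem inv (hS : Sys E C δ A tp) (j : ℕ) (hj : tp j = true) (k : ℕ) :
    ∃ M, ∀ z ≥ M, (∃ ρ : List Bool, z.unpair.1 = encode ρ ∧ pre tp (j + 1) <+: ρ) →
      ((∃ s, A s k z) ↔ ∃ s, A s (k ^^^ 2 ^ j) z) := by
  obtain ⟨M1, h1⟩ := inv1 hS j hj k
  obtain ⟨M2, h2⟩ := inv1 hS j hj (k ^^^ 2 ^ j)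
  rw [Nat.xor_assoc, Nat.xor_self, Nat.xor_zero] at h2
  refine ⟨max M1 M2, fun z hz hρ => ?_⟩
  obtain ⟨ρ, hρ1, hρ2⟩ := hρ
  have hz1 : M1 ≤ z := (le_max_left _ _).trans hz
  have hz2 : M2 ≤ z := (le_max_right _ _).trans hz
  have aux : ∀ k' s n, Act E C δ (VV A) s n k' z → pre tp (j + 1) <+: (δ s).take n := by
    intro k' s n hact
    have h3 := hact.1.2.1
    rw [hρ1] at h3
    rw [← encode_injective h3]
    exact hρ2
  constructor
  · rintro ⟨s, hs⟩
    obtain ⟨n, hn, hact⟩ := (hS.hA s _ z).1 hs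
    exact ⟨s, (hS.hA s _ z).2 ⟨n, hn, h1 z hz1 s n hn (aux _ _ _ hact) hact⟩⟩
  · rintro ⟨s, hs⟩
    obtain ⟨n, hn, hact⟩ := (hS.hA s _ z).1 hs
    exact ⟨s, (hS.hA s _ z).2 ⟨n, hn, h2 z hz2 s n hn (aux _ _ _ hact) hact⟩⟩

theorem inv_late (hS : Sys E C δ A tp) (m : ℕ) (k : ℕ) :
    ∃ s1, ∀ t ≥ s1, (δ t).take m = pre tp m → ∀ z ≤ t,
      (¬ ∃ ρ : List Bool, z.unpair.1 = encode ρ ∧ pre tp m <+: ρ) →
      (∃ s, A s k z) → VV A t k z := by
  obtain ⟨s1, hs1⟩ := late hS m (fun n _ => nc hS n) k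
  refine ⟨s1, fun t ht hst z hz hn => ?_⟩
  rintro ⟨q, hq⟩
  by_cases hqt : q < t + 1
  · exact ⟨q, hqt, hq⟩
  · exfalso
    obtain ⟨n', hn', hact⟩ := (hS.hA q k z).1 hq
    exact hn ⟨(δ q).take n', hact.1.2.1, hs1 t ht hst q (by omega) n' hn' z hz hact⟩

end

end Pool.Agent.TH769.CD
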