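import Pool.Agent.TH769.CD.Tab

set_option autoImplicit false

/-!
The degrees of the sets constructed.
-/

namespace Pool.Agent.TH769.CD

open Encodable Pool.Agent.Helper227 Pool.Agent.H548R2.Post
open Nat.Partrec (Code)

attribute [local fun_prop] Primrec
attribute [local fun_prop] Primrec.id Primrec.const Primrec.comp Primrec.pair Primrec.fst Primrec.snd
attribute [local fun_prop] pf_add pf_mul pf_div pf_mod pf_pow pf_getD pf_take pf_append pf_cons
  pf_length pf_range pf_natPair pf_unpair pf_encode pf_testBit pf_xorb pf_andb pf_hlt pf_xor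

/-- the set constructed for `X` -/
def Vi (X : ℕ → Bool) (z : ℕ) : Prop := ∃ s, AA X s 0 z

/-- the value of the operator: the join of `X` with the set constructed -/
noncomputable def WX (X : ℕ → Bool) : ℕ → Bool := jp X (Vi X)

theorem WX_even (X : ℕ → Bool) (m : ℕ) : WX X (2 * m) = X m := by
  unfold WX jp
  rw [if_pos (by omega)]
  congr 1
  omega

theorem WX_odd (X : ℕ → Bool) (m : ℕ) : WX X (2 * m + 1) = true ↔ Vi X m := by
  unfold WX jp
  rw [if_neg (by omega), show (2 * m + 1) / 2 = m by omega]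
  exact @decide_eq_true_iff _ (Classical.propDecidable _)

/-- finite conditions on initial segments of the oracle -/
theorem si_of_fin {Q : List Bool → ℕ → ℕ → Prop}
    (hQ : PrimrecPred fun x : List Bool × ℕ × ℕ => Q x.1 x.2.1 x.2.2) (X : ℕ → Bool) :
    SI X fun x : ℕ × ℕ => Q (pre X (2 * x.1 + 4)) x.1 x.2 := by
  have h1 : PrimrecPred fun y : (ℕ × ℕ) × List Bool => Q y.2 (y.1.2 / 2 - 2) y.1.1 := by
    refine hQ.comp (f := fun y : (ℕ × ℕ) × List Bool => (y.2, y.1.2 / 2 - 2, y.1.1)) ?_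
    refine Primrec.pair (by fun_prop) (Primrec.pair ?_ (by fun_prop))
    exact Primrec.nat_sub.comp (by fun_prop) (by fun_prop)
  have h2 := t42_gen (X := X) (S1.of_prim h1)
  have h3 := h2.comp (f := fun x : ℕ × ℕ => (x.2, 2 * x.1 + 4)) (by fun_prop)
  refine h3.of_eq fun x => ?_
  simp only [show (2 * x.1 + 4) / 2 - 2 = x.1 by omega]

theorem si_VV (X : ℕ → Bool) : SI X fun x : ℕ × ℕ => VV (AA X) x.1 0 x.2 :=
  (si_of_fin (Q := VF) (pp_VF (by fun_prop) (by fun_prop) (by fun_prop)) X).of_eq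
    fun _ => VF_iff le_rfl

theorem Vi_iff (X : ℕ → Bool) (z : ℕ) : Vi X z ↔ ∃ t, VV (AA X) t 0 z :=
  ⟨fun ⟨s, h⟩ => ⟨s, s, Nat.lt_succ_self s, h⟩, fun ⟨_, s, _, h⟩ => ⟨s, h⟩⟩

theorem si_Vi (X : ℕ → Bool) : SI X fun z : ℕ => Vi X z := by
  have h : SI X fun z : ℕ => ∃ t, VV (AA X) t 0 z :=
    SI.ex (p := fun (z t : ℕ) => VV (AA X) t 0 z)
      ((si_VV X).comp (f := fun x : ℕ × ℕ => (x.2, x.1)) (by fun_prop))
  exact h.of_eq fun z => (Vi_iff X z).symm

theorem si_WX (X : ℕ → Bool) : SI X fun m : ℕ => WX X m = true := by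
  have h1 : SI X fun m : ℕ => m % 2 = 0 ∧ X (m / 2) = true :=
    SI.and (SI.of_prim (pp_eq (by fun_prop) (by fun_prop)))
      (SI.query.comp (f := fun m : ℕ => (m / 2, true)) (by fun_prop))
  have h2 : SI X fun m : ℕ => ¬ (m % 2 = 0) ∧ Vi X (m / 2) :=
    SI.and (SI.of_prim (PrimrecPred.not (pp_eq (by fun_prop) (by fun_prop))))
      ((si_Vi X).comp (f := fun m : ℕ => m / 2) (by fun_prop))
  refine (SI.or h1 h2).of_eq fun m => ?_
  rcases Nat.even_or_odd' m with ⟨n, rfl | rfl⟩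
  · rw [WX_even]
    have e1 : (2 * n) % 2 = 0 := by omega
    have e2 : (2 * n) / 2 = n := by omega
    simp [e1, e2]
  · rw [WX_odd]
    have e1 : (2 * n + 1) % 2 = 1 := by omega
    have e2 : (2 * n + 1) / 2 = n := by omega
    simp [e1, e2]

theorem le_WX (X : ℕ → Bool) : TLe X (WX X) := by
  have hf : Computable fun n : ℕ => 2 * n := by
    have : Primrec fun n : ℕ => 2 * n := by fun_prop
    exact this.to_comp
  exact tLe_of_computable hf fun n => (WX_even X n).symm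

theorem WX_le_jump (X : ℕ → Bool) : TLe (WX X) (jump X) := by
  rw [tLe_iff_SI]
  obtain ⟨h2, h3⟩ := (si_WX X).decide_jump
  have h4 : SI (jump X) fun x : ℕ × Bool =>
      (WX X x.1 = true ∧ x.2 = true) ∨ (¬ WX X x.1 = true ∧ x.2 = false) := by
    refine SI.or (SI.and (h2.comp Primrec.fst) (SI.of_prim ?_))
      (SI.and (h3.comp (f := fun x : ℕ × Bool => x.1) Primrec.fst) (SI.of_prim ?_))
    · exact Primrec.eq.comp Primrec.snd (Primrec.const true)
    · exact Primrec.eq.comp Primrec.snd (Primrec.const false)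
  refine h4.of_eq fun x => ?_
  rcases x with ⟨n, b⟩
  cases b <;> simp

theorem EE_zero {X : ℕ → Bool} {t n z : ℕ} : EE X (cI X) t n z 0 ↔ En t n z X := by
  unfold EE
  rw [sh_zero (DD_xor _)]

theorem not_WX_le (X : ℕ → Bool) : ¬ TLe (WX X) X := by
  intro h
  have h1 : SI X (fun x : ℕ × Bool => WX X x.1 = x.2) := tLe_iff_SI.1 h
  have h2 : SI X (fun z : ℕ => WX X (2 * z + 1) = false) :=
    h1.comp (f := fun z : ℕ => (2 * z + 1, false)) (by fun_prop)
  have h3 : SI X (fun z : ℕ => z ∈ {z | ¬ Vi X z}) := by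
    refine h2.of_eq fun z => ?_
    rw [Set.mem_ofPred_eq, ← WX_odd, Bool.not_eq_true]
  obtain ⟨n, hn⟩ := ceIn_iff_exists_WE.1 (SI.iff_ceIn.2 h3)
  refine pos (sys X) n (fun z hz => ?_) (fun z s hz t hE => ?_)
  · have h4 : z ∈ WE X n := by
      rw [← hn]
      rintro ⟨s, hs⟩
      exact hz s hs
    obtain ⟨t, ht⟩ := (mem_WE_iff X n z).1 h4
    exact ⟨t, EE_zero.2 ht⟩
  · have h4 : z ∈ WE X n := (mem_WE_iff X n z).2 ⟨t, EE_zero.1 hE⟩
    rw [← hn] at h4
    exact h4 ⟨s, hz⟩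

/-! The index. -/

theorem index_S1 : S1 fun x : List Bool × ℕ => (x.2 % 2 = 0 ∧ x.1[x.2 / 2]? = some true) ∨
    (x.2 % 2 = 1 ∧ (4 ≤ x.1.length ∧ VF x.1 ((x.1.length - 4) / 2) (x.2 / 2))) := by
  refine S1.of_prim (PrimrecPred.or (PrimrecPred.and (pp_eq (by fun_prop) (by fun_prop))
    (pp_eq ?_ (by fun_prop))) (PrimrecPred.and (pp_eq (by fun_prop) (by fun_prop))
      (PrimrecPred.and (pp_le (by fun_prop) (by fun_prop)) (pp_VF (by fun_prop) ?_
        (by fun_prop)))))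
  · exact Primrec.list_getElem?.comp (by fun_prop) (by fun_prop)
  · refine pf_div (Primrec.nat_sub.comp (by fun_prop) (by fun_prop)) (by fun_prop)

theorem exists_index' : ∃ e : ℕ, ∀ X : ℕ → Bool, WE X e = {m | WX X m = true} := by
  obtain ⟨c, hc⟩ := Nat.Partrec.Code.exists_code.1 index_S1.re
  refine ⟨encode c, fun X => ?_⟩
  ext m
  simp only [WE, Set.mem_ofPred_eq, Denumerable.ofNat_encode]
  have h1 : (∃ k : ℕ, (c.eval (encode ((List.range k).map X, m))).Dom) ↔
      ∃ k : ℕ, (m % 2 = 0 ∧ (pre X k)[m / 2]? = some true) ∨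
      (m % 2 = 1 ∧ (4 ≤ (pre X k).length ∧
        VF (pre X k) (((pre X k).length - 4) / 2) (m / 2))) := by
    refine exists_congr fun k => ?_
    rw [hc]
    simp [Part.assert, pre]
  rw [h1]
  have h2 : ∀ k : ℕ, (pre X k)[m / 2]? = some true ↔ m / 2 < k ∧ X (m / 2) = true := by
    intro k
    unfold pre
    rw [List.getElem?_map]
    by_cases hk : m / 2 < k
    · rw [List.getElem?_eq_getElem (by simpa using hk)]
      simp [hk]
    · rw [List.getElem?_eq_none (by simpa using hk)]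
      simp [hk]
  rcases Nat.even_or_odd' m with ⟨n, rfl | rfl⟩
  · rw [WX_even]
    have e2 : (2 * n) / 2 = n := by omega
    rw [e2] at h2 ⊢
    constructor
    · rintro ⟨k, ⟨-, h4⟩ | ⟨h3, -⟩⟩
      · exact ((h2 k).1 h4).2
      · omega
    · intro h
      exact ⟨n + 1, Or.inl ⟨by omega, (h2 _).2 ⟨by omega, h⟩⟩⟩
  · rw [WX_odd, Vi_iff]
    have e2 : (2 * n + 1) / 2 = n := by omega
    rw [e2]
    constructor
    · rintro ⟨k, ⟨h3, -⟩ | ⟨-, h3, h4⟩⟩
      · omega
      · rw [length_pre] at h3 h4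
        exact ⟨_, (VF_iff (by omega)).1 h4⟩
    · rintro ⟨t, ht⟩
      refine ⟨2 * t + 4, Or.inr ⟨by omega, ?_, ?_⟩⟩
      · rw [length_pre]
        omega
      · rw [length_pre, show (2 * t + 4 - 4) / 2 = t by omega]
        exact (VF_iff le_rfl).2 ht

/-! The jump of `X` is not computable from the value. -/

theorem stable (X : ℕ → Bool) (u : ℕ) :
    ∃ s0, ∀ t ≥ s0, ∀ u' ≤ u, pre (jp X (VV (AA X) t 0)) u' = pre (WX X) u' := by
  classical
  obtain ⟨a, ha⟩ := bdd_lt u (fun y t => (VV (AA X) t 0 y ↔ Vi X y)) (fun y _ => by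
    by_cases h : Vi X y
    · obtain ⟨s, hs⟩ := h
      exact ⟨s, fun t ht => ⟨fun _ => ⟨s, hs⟩, fun _ => ⟨s, by omega, hs⟩⟩⟩
    · refine ⟨0, fun t _ => ⟨fun h1 => (Vi_iff X y).2 ⟨t, h1⟩, fun h1 => absurd h1 h⟩⟩)
  refine ⟨a, fun t ht u' hu' => ?_⟩
  refine T03_pre (s := u') (fun i hi => ?_) le_rfl
  exact jp_congr (u := u') (fun _ _ => rfl) (fun y hy => ha y (by omega) t ht) i hi

/-- `b` is selected at stage `t` by the node of length `m` -/
def Sel (X : ℕ → Bool) (t b : ℕ) : Prop :=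
  ∃ m < t + 1, b < t + 1 ∧ b.unpair.1 = encode ((dl (kn X) t).take m) ∧
    ∃ u < t + 1, hlt t m b (pre (jp X (VV (AA X) t 0)) u) = true ∧
      ∀ u' < u, ∀ b' < t + 1, b'.unpair.1 = b.unpair.1 →
        ¬ hlt t m b' (pre (jp X (VV (AA X) t 0)) u') = true

/-- the finite version of `Sel` -/
def SelF (σ : List Bool) (t b : ℕ) : Prop :=
  ∃ m < t + 1, b < t + 1 ∧
    b.unpair.1 = encode (((dls (kn (ext σ)) (t + 1)).getD t []).take m) ∧
    ∃ u < t + 1, hlt t m b (pre (jp (ext σ) (VF σ t)) u) = true ∧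
      ∀ u' < u, ∀ b' < t + 1, b'.unpair.1 = b.unpair.1 →
        ¬ hlt t m b' (pre (jp (ext σ) (VF σ t)) u') = true

theorem SelF_iff {X : ℕ → Bool} {t b : ℕ} : SelF (pre X (2 * t + 4)) t b ↔ Sel X t b := by
  have h1 : ∀ u ≤ t, pre (jp (ext (pre X (2 * t + 4))) (VF (pre X (2 * t + 4)) t)) u =
      pre (jp X (VV (AA X) t 0)) u := by
    intro u hu
    refine T03_pre (s := u) (fun i hi => ?_) le_rfl
    exact jp_congr (u := u) (fun i hi => ext_pre_eq (by omega)) (fun y _ => VF_iff le_rfl) i hi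
  unfold SelF Sel
  rw [delta_eq (S := t + 1) (by omega) (Nat.lt_succ_self t)]
  refine exists_congr fun m => and_congr_right fun _ => and_congr_right fun _ =>
    and_congr_right fun _ => exists_congr fun u => and_congr_right fun hu => ?_
  rw [h1 u (by omega)]
  refine and_congr_right fun _ => forall_congr' fun u' => forall_congr' fun hu' => ?_
  rw [h1 u' (by omega)]

theorem pf_jpF {β : Type} [Primcodable β] {σ : β → List Bool} {t u : β → ℕ} (hσ : Primrec σ)
    (ht : Primrec t) (hu : Primrec u) :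
    Primrec fun b => pre (jp (ext (σ b)) (VF (σ b) (t b))) (u b) := by
  classical
  refine pf_pre ?_ hu
  unfold jp
  refine Primrec.ite (pp_eq (by fun_prop) (by fun_prop)) ?_ (pf_decide ?_ _)
  · exact pf_ext (by fun_prop) (by fun_prop)
  · exact pp_VF (by fun_prop) (by fun_prop) (by fun_prop)

theorem pf_dlF {β : Type} [Primcodable β] {σ : β → List Bool} {t : β → ℕ} (hσ : Primrec σ)
    (ht : Primrec t) : Primrec fun b => (dls (kn (ext (σ b))) (t b + 1)).getD (t b) [] := by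
  refine pf_getD ?_ ht
  exact pf_dls.comp (f := fun x : List Bool × ℕ => dls (kn (ext x.1)) x.2)
    (g := fun b => (σ b, t b + 1)) (by fun_prop)

theorem pp_SelF : PrimrecPred fun x : List Bool × ℕ × ℕ => SelF x.1 x.2.1 x.2.2 := by
  refine pp_exlt (by fun_prop) (PrimrecPred.and (pp_lt (by fun_prop) (by fun_prop))
    (PrimrecPred.and (pp_eq (by fun_prop) (pf_encode (pf_take (by fun_prop)
      (pf_dlF (by fun_prop) (by fun_prop)))))
      (pp_exlt (by fun_prop) (PrimrecPred.and (pp_eq (pf_hlt (by fun_prop) (by fun_prop)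
        (by fun_prop) (pf_jpF (by fun_prop) (by fun_prop) (by fun_prop))) (by fun_prop))
        (pp_alllt (by fun_prop) (pp_alllt (by fun_prop) (pp_imp (pp_eq (by fun_prop)
          (by fun_prop)) (PrimrecPred.not (pp_eq (pf_hlt (by fun_prop) (by fun_prop)
          (by fun_prop) (pf_jpF (by fun_prop) (by fun_prop) (by fun_prop)))
            (by fun_prop))))))))))

theorem CC_zero {X : ℕ → Bool} {t m a u : ℕ} {v : ℕ → Prop} :
    CC X (cI X) t m a u 0 v ↔
      ∃ b < t + 1, b.unpair.1 = a ∧ hlt t m b (pre (jp X v) u) = true := by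
  unfold CC
  rw [sh_zero (DD_xor _)]

theorem not_jump_le_WX (X : ℕ → Bool) : ¬ TLe (jump X) (WX X) := by
  classical
  intro h
  have hB : SI X fun b : ℕ => ∃ t, Sel X t b := by
    refine SI.ex (p := fun (b t : ℕ) => Sel X t b) ?_
    have h1 := (si_of_fin (Q := SelF) pp_SelF X).comp (f := fun x : ℕ × ℕ => (x.2, x.1))
      (by fun_prop)
    exact h1.of_eq fun x => SelF_iff
  have hB2 : SI (WX X) fun b : ℕ => b ∈ {b : ℕ | ¬ ∃ t, Sel X t b} :=
    (hB.decide_jump.2).trans h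
  obtain ⟨e, he⟩ := ceIn_iff_exists_WE.1 (SI.iff_ceIn.2 hB2)
  have hS := sys X
  obtain ⟨R, hR⟩ := okbound hS e (fun n _ => nc hS n) 0
  obtain ⟨a, ha⟩ := stable X R
  by_cases hcase : ∀ s0, ∃ t ≥ s0, (dl (kn X) t).take e = pre (TP (kn X)) e ∧
      ∃ u < t + 1, CC X (cI X) t e (encode (pre (TP (kn X)) e)) u 0 (VV (AA X) t 0)
  · obtain ⟨t, ht, hst, hex⟩ := hcase a
    obtain ⟨u1, hu1, hu2, hu3⟩ := hR R le_rfl t hst hex
    have hex2 : ∃ u, CC X (cI X) t e (encode (pre (TP (kn X)) e)) u 0 (VV (AA X) t 0) := ⟨u1, hu3⟩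
    have hmin : ∀ u' < Nat.find hex2,
        ¬ CC X (cI X) t e (encode (pre (TP (kn X)) e)) u' 0 (VV (AA X) t 0) :=
      fun u' h' => Nat.find_min hex2 h'
    have hfs := Nat.find_spec hex2
    have hle : Nat.find hex2 ≤ u1 := Nat.find_min' hex2 hu3
    generalize Nat.find hex2 = u at hmin hfs hle
    obtain ⟨b, hb, hbc, hh⟩ := CC_zero.1 hfs
    have hbB : Sel X t b := by
      refine ⟨e, ?_, hb, by rw [hbc, hst], u, by omega, hh, fun u' hu' b' hb' hbb hh' => ?_⟩
      · have := stage_le hS hst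
        omega
      · exact hmin u' hu' (CC_zero.2 ⟨b', hb', by rw [hbb, hbc], hh'⟩)
    have hbW : b ∈ WE (WX X) e := by
      rw [ha t ht u (by omega)] at hh
      exact ⟨u, (exists_hlt_iff e b _).1 ⟨t, hh⟩⟩
    rw [← he] at hbW
    exact hbW ⟨t, hbB⟩
  · push Not at hcase
    obtain ⟨s1, hs1⟩ := hcase
    obtain ⟨b, hbc, hb⟩ : ∃ b : ℕ, b.unpair.1 = encode (pre (TP (kn X)) e) ∧ s1 ≤ b :=
      ⟨Nat.pair (encode (pre (TP (kn X)) e)) s1, by rw [Nat.unpair_pair], Nat.right_le_pair _ _⟩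
    have hnB : ¬ ∃ t, Sel X t b := by
      rintro ⟨t, m, hm, hbt, hbm, u, hu, hh, -⟩
      rw [hbc] at hbm
      have h3 := encode_injective hbm
      have h4 : m = e := by
        have := congrArg List.length h3
        rw [length_pre, List.length_take, dl_length] at this
        omega
      subst h4
      exact hs1 t (by omega) h3.symm u hu (CC_zero.2 ⟨b, hbt, hbc, hh⟩)
    have hbW : b ∈ WE (WX X) e := by
      rw [← he]
      exact hnB
    obtain ⟨u, hu⟩ := hbW
    obtain ⟨s, hs⟩ := (exists_hlt_iff e b _).2 hu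
    obtain ⟨a', ha'⟩ := stable X u
    obtain ⟨t, ht, hst⟩ := hS.inf e (max (max a' s1) (max s (max u b)))
    have g1 : a' ≤ t := by omega
    have g2 : s1 ≤ t := by omega
    have g3 : s ≤ t := by omega
    have g4 : u ≤ t := by omega
    have g5 : b ≤ t := by omega
    refine hs1 t g2 hst u (by omega) (CC_zero.2 ⟨b, by omega, hbc, ?_⟩)
    rw [ha' t g1 u le_rfl]
    exact hlt_mono g3 hs

end Pool.Agent.TH769.CD
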