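import Pool.Agent.H548R2.Post.Main

set_option autoImplicit false

/-!
Guessing at stages: `dl kn s` is a string of length `s` whose bit `i` guesses whether
`∀ t, ∃ s, kn i t s`.
-/

namespace Pool.Agent.TH769.CD

open Encodable Pool.Agent.Helper227

/-- `σ` is to the left of `τ`: at the first difference `σ` has the bit `true`. -/
def Left (σ τ : List Bool) : Prop :=
  ∃ i, σ.take i = τ.take i ∧ σ.getD i false = true ∧ τ.getD i true = false

/-- The next bit at stage `s`, where `L` lists the strings of the earlier stages and `τ` is the
part already built. -/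
def nb (kn : ℕ → ℕ → ℕ → Bool) (L : List (List Bool)) (s : ℕ) (τ : List Bool) : Bool :=
  decide (∀ t < s, (L.getD t []).take (τ.length + 1) = τ ++ [true] → kn τ.length (t + 1) s = true)

def bld (kn : ℕ → ℕ → ℕ → Bool) (L : List (List Bool)) (s : ℕ) : ℕ → List Bool
  | 0 => []
  | i + 1 => bld kn L s i ++ [nb kn L s (bld kn L s i)]

def dls (kn : ℕ → ℕ → ℕ → Bool) : ℕ → List (List Bool)
  | 0 => []
  | s + 1 => dls kn s ++ [bld kn (dls kn s) s s]

/-- the string of stage `s` -/
def dl (kn : ℕ → ℕ → ℕ → Bool) (s : ℕ) : List Bool := bld kn (dls kn s) s s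

theorem bld_length (kn : ℕ → ℕ → ℕ → Bool) (L : List (List Bool)) (s i : ℕ) :
    (bld kn L s i).length = i := by
  induction i with
  | zero => rfl
  | succ i ih => simp [bld, ih]

theorem bld_take (kn : ℕ → ℕ → ℕ → Bool) (L : List (List Bool)) (s : ℕ) {i n : ℕ} (h : i ≤ n) :
    (bld kn L s n).take i = bld kn L s i := by
  induction n, h using Nat.le_induction with
  | base => exact List.take_of_length_le (by rw [bld_length])
  | succ n hn ih =>
    rw [bld, List.take_append_of_le_length (by rw [bld_length]; exact hn)]
    exact ih

theorem dls_length (kn : ℕ → ℕ → ℕ → Bool) (s : ℕ) : (dls kn s).length = s := by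
  induction s with
  | zero => rfl
  | succ s ih => simp [dls, ih]

theorem dls_getD (kn : ℕ → ℕ → ℕ → Bool) {s t : ℕ} (h : t < s) :
    (dls kn s).getD t [] = dl kn t := by
  induction s with
  | zero => omega
  | succ s ih =>
    rw [dls]
    rcases Nat.lt_succ_iff_lt_or_eq.1 h with h1 | h1
    · rw [List.getD_append _ _ _ _ (by rw [dls_length]; exact h1)]
      exact ih h1
    · subst h1
      rw [List.getD_append_right _ _ _ _ (by rw [dls_length]), dls_length, Nat.sub_self]
      rfl

theorem dl_length (kn : ℕ → ℕ → ℕ → Bool) (s : ℕ) : (dl kn s).length = s := bld_length _ _ _ _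

/-- The rule for the bits of the string of stage `s`. -/
theorem dl_rule (kn : ℕ → ℕ → ℕ → Bool) {s i : ℕ} (hi : i < s) :
    ∃ b : Bool, (dl kn s).take (i + 1) = (dl kn s).take i ++ [b] ∧
      (b = true ↔ ∀ t < s, (dl kn t).take (i + 1) = (dl kn s).take i ++ [true] →
        kn i (t + 1) s = true) := by
  refine ⟨nb kn (dls kn s) s ((dl kn s).take i), ?_, ?_⟩
  · unfold dl
    rw [bld_take kn _ s (show i + 1 ≤ s by omega), bld_take kn _ s hi.le]
    rfl
  · have hl : ((dl kn s).take i).length = i := by
      rw [List.length_take, dl_length]; omega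
    unfold nb
    rw [decide_eq_true_iff, hl]
    refine forall_congr' fun t => ?_
    refine forall_congr' fun ht => ?_
    rw [dls_getD kn ht]

open Classical in
/-- the true path -/
noncomputable def TP (kn : ℕ → ℕ → ℕ → Bool) (i : ℕ) : Bool :=
  decide (∀ t, ∃ s, kn i t s = true)

theorem TP_iff (kn : ℕ → ℕ → ℕ → Bool) (i : ℕ) : TP kn i = true ↔ ∀ t, ∃ s, kn i t s = true := by
  unfold TP
  exact @decide_eq_true_iff _ (Classical.propDecidable _)

/-- `kn i t s` is preserved when `s` grows and when `t` decreases -/
def Mono (kn : ℕ → ℕ → ℕ → Bool) : Prop :=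
  ∀ i t t' s s', t' ≤ t → s ≤ s' → kn i t s = true → kn i t' s' = true

theorem getD_of_take {σ : List Bool} {i : ℕ} {b d : Bool} (hi : i < σ.length)
    (h : σ.take (i + 1) = σ.take i ++ [b]) : σ.getD i d = b := by
  have h1 : (σ.take (i + 1)).getD i d = b := by
    rw [h, List.getD_append_right _ _ _ _ (by rw [List.length_take]; omega)]
    rw [List.length_take, min_eq_left hi.le, Nat.sub_self]
    rfl
  rw [← h1, List.getD_eq_getElem?_getD, List.getD_eq_getElem?_getD, List.getElem?_take,
    if_pos (by omega)]

theorem take_succ_of_getD {σ : List Bool} {i : ℕ} (h : σ.getD i false = true) :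
    σ.take (i + 1) = σ.take i ++ [true] := by
  have hi : i < σ.length := by
    by_contra hc
    rw [List.getD_eq_default _ _ (by omega)] at h
    exact Bool.false_ne_true h
  rw [List.getD_eq_getElem _ _ hi] at h
  rw [List.take_succ_eq_append_getElem hi, h]

theorem left_append {σ τ : List Bool} {b : Bool} (h : Left σ (τ ++ [b])) :
    Left σ τ ∨ (σ.take τ.length = τ ∧ σ.getD τ.length false = true ∧ b = false) := by
  obtain ⟨i, h1, h2, h3⟩ := h
  rcases lt_trichotomy i τ.length with hi | hi | hi
  · left
    refine ⟨i, ?_, h2, ?_⟩
    · rw [h1, List.take_append_of_le_length hi.le]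
    · rwa [List.getD_append _ _ _ _ hi] at h3
  · right
    subst hi
    refine ⟨?_, h2, ?_⟩
    · rw [h1, List.take_left]
    · rw [List.getD_append_right _ _ _ _ le_rfl, Nat.sub_self] at h3
      exact h3
  · exfalso
    rw [List.getD_eq_default _ _ (by simp; omega)] at h3
    exact Bool.false_ne_true h3.symm

theorem not_left_nil (σ : List Bool) : ¬ Left σ [] := by
  rintro ⟨i, -, -, h⟩
  simp at h

theorem path (kn : ℕ → ℕ → ℕ → Bool) (hk : Mono kn) (n : ℕ) :
    (∀ s0, ∃ s ≥ s0, n ≤ s ∧ (dl kn s).take n = pre (TP kn) n) ∧
      ∃ s0, ∀ s ≥ s0, ¬ Left (dl kn s) (pre (TP kn) n) := by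
  induction n with
  | zero =>
    refine ⟨fun s0 => ⟨s0, le_rfl, Nat.zero_le _, ?_⟩, 0, fun s _ => not_left_nil _⟩
    simp [pre]
  | succ n ih =>
    obtain ⟨ih1, sl, ih2⟩ := ih
    have hlen : (pre (TP kn) n).length = n := length_pre _ _
    rw [pre_succ]
    cases hT : TP kn n with
    | true =>
      have htot := (TP_iff kn n).1 hT
      constructor
      · by_contra hcon
        push Not at hcon
        obtain ⟨s0, hs0⟩ := hcon
        obtain ⟨s1, hs1⟩ := htot (s0 + 1)
        obtain ⟨s, hs, hns, hst⟩ := ih1 (max (max s0 s1) (n + 1))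
        have a1 : s0 ≤ s := ((le_max_left s0 s1).trans (le_max_left _ _)).trans hs
        have a2 : s1 ≤ s := ((le_max_right s0 s1).trans (le_max_left _ _)).trans hs
        have a3 : n + 1 ≤ s := (le_max_right _ _).trans hs
        obtain ⟨b, hb1, hb2⟩ := dl_rule kn (show n < s by omega)
        rw [hst] at hb1 hb2
        have hbt : b = true := by
          rw [hb2]
          intro t _ ht2
          have h3 : n + 1 ≤ t := by
            have := congrArg List.length ht2
            rw [List.length_take, dl_length, List.length_append, hlen] at this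
            simp at this
            omega
          have h4 : t < s0 := by
            by_contra hc
            exact hs0 t (by omega) h3 ht2
          exact hk n (s0 + 1) (t + 1) s1 s (by omega) a2 hs1
        rw [hbt] at hb1
        exact hs0 s a1 a3 hb1
      · refine ⟨sl, fun s hs hL => ?_⟩
        rcases left_append hL with h | ⟨-, -, h⟩
        · exact ih2 s hs h
        · exact Bool.false_ne_true h.symm
    | false =>
      have hnt : ∃ t0, ∀ s, ¬ kn n t0 s = true := by
        by_contra hc
        push Not at hc
        have := (TP_iff kn n).2 hc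
        rw [hT] at this
        exact Bool.false_ne_true this
      obtain ⟨t0, ht0⟩ := hnt
      -- from some stage on the string of the stage does not extend the path by `true`
      have hfin : ∃ s1, ∀ s ≥ s1, (dl kn s).take (n + 1) ≠ pre (TP kn) n ++ [true] := by
        by_contra hc
        push Not at hc
        obtain ⟨t, ht, htt⟩ := hc t0
        obtain ⟨s, hs, hss⟩ := hc (t + 1)
        have hns : n < s := by
          have := congrArg List.length hss
          rw [List.length_take, dl_length, List.length_append, hlen] at this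
          simp at this
          omega
        obtain ⟨b, hb1, hb2⟩ := dl_rule kn hns
        have h5 : (dl kn s).take n = pre (TP kn) n := by
          have := congrArg (List.take n) hss
          rw [List.take_take, min_eq_left (Nat.le_succ n),
            List.take_append_of_le_length (by rw [hlen])] at this
          rw [this]
          exact List.take_of_length_le (by rw [hlen])
        rw [h5] at hb1 hb2
        have h6 : b = true := by
          rw [hb1] at hss
          simpa using hss
        have h7 := hb2.1 h6 t (by omega) htt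
        exact ht0 s (hk n (t + 1) t0 s s (by omega) le_rfl h7)
      obtain ⟨s1, hs1⟩ := hfin
      constructor
      · intro s0
        obtain ⟨s, hs, hns, hst⟩ := ih1 (max (max s0 s1) (n + 1))
        have a1 : s0 ≤ s := ((le_max_left s0 s1).trans (le_max_left _ _)).trans hs
        have a2 : s1 ≤ s := ((le_max_right s0 s1).trans (le_max_left _ _)).trans hs
        have a3 : n + 1 ≤ s := (le_max_right _ _).trans hs
        obtain ⟨b, hb1, -⟩ := dl_rule kn (show n < s by omega)
        rw [hst] at hb1
        cases b with
        | true => exact absurd hb1 (hs1 s a2)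
        | false => exact ⟨s, a1, a3, hb1⟩
      · refine ⟨max sl s1, fun s hs hL => ?_⟩
        rcases left_append hL with h | ⟨h1, h2, -⟩
        · exact ih2 s ((le_max_left _ _).trans hs) h
        · rw [hlen] at h1 h2
          refine hs1 s ((le_max_right _ _).trans hs) ?_
          rw [take_succ_of_getD h2, h1]

/-- At a stage, the totality guesses have been confirmed beyond the earlier stages with the same
guesses. -/
theorem kn_of_dl (kn : ℕ → ℕ → ℕ → Bool) {s t n i : ℕ} (hts : t < s)
    (he : (dl kn t).take n = (dl kn s).take n) (hi : i < n)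
    (hb : (dl kn s).getD i false = true) : kn i (t + 1) s = true := by
  have his : i < s := by
    by_contra hc
    rw [List.getD_eq_default _ _ (by rw [dl_length]; omega)] at hb
    exact Bool.false_ne_true hb
  obtain ⟨b, h1, h2⟩ := dl_rule kn his
  have h3 := take_succ_of_getD hb
  have h4 : b = true := by
    rw [h1] at h3
    simpa using h3
  refine h2.1 h4 t hts ?_
  rw [← h3]
  have := congrArg (List.take (i + 1)) he
  rwa [List.take_take, List.take_take, min_eq_left (by omega : i + 1 ≤ n)] at this

theorem bld_congr {kn kn' : ℕ → ℕ → ℕ → Bool} {L : List (List Bool)} {s : ℕ}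
    (h : ∀ i t, kn i t s = kn' i t s) (i : ℕ) : bld kn L s i = bld kn' L s i := by
  induction i with
  | zero => rfl
  | succ i ih =>
    rw [bld, bld, ih]
    unfold nb
    simp only [h]

theorem dls_congr {kn kn' : ℕ → ℕ → ℕ → Bool} {S : ℕ}
    (h : ∀ i t, ∀ s < S, kn i t s = kn' i t s) : dls kn S = dls kn' S := by
  induction S with
  | zero => rfl
  | succ S ih =>
    rw [dls, dls, ih fun i t s hs => h i t s (by omega),
      bld_congr fun i t => h i t S (by omega)]

/-- comparison of strings -/
theorem tri (ρ τ : List Bool) : ρ <+: τ ∨ τ <+: ρ ∨ Left ρ τ ∨ Left τ ρ := by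
  induction ρ generalizing τ with
  | nil => exact Or.inl List.nil_prefix
  | cons a ρ ih =>
    cases τ with
    | nil => exact Or.inr (Or.inl List.nil_prefix)
    | cons b τ =>
      by_cases hab : a = b
      · subst hab
        rcases ih τ with h | h | ⟨i, h1, h2, h3⟩ | ⟨i, h1, h2, h3⟩
        · exact Or.inl (List.prefix_cons_inj a |>.2 h)
        · exact Or.inr (Or.inl (List.prefix_cons_inj a |>.2 h))
        · refine Or.inr (Or.inr (Or.inl ⟨i + 1, ?_, ?_, ?_⟩))
          · rw [List.take_succ_cons, List.take_succ_cons, h1]
          · rw [List.getD_cons_succ]; exact h2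
          · rw [List.getD_cons_succ]; exact h3
        · refine Or.inr (Or.inr (Or.inr ⟨i + 1, ?_, ?_, ?_⟩))
          · rw [List.take_succ_cons, List.take_succ_cons, h1]
          · rw [List.getD_cons_succ]; exact h2
          · rw [List.getD_cons_succ]; exact h3
      · cases a <;> cases b
        · exact absurd rfl hab
        · exact Or.inr (Or.inr (Or.inr ⟨0, rfl, rfl, rfl⟩))
        · exact Or.inr (Or.inr (Or.inl ⟨0, rfl, rfl, rfl⟩))
        · exact absurd rfl hab

theorem left_of_take {σ τ : List Bool} {n : ℕ} (h : Left (σ.take n) τ) : Left σ τ := by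
  obtain ⟨i, h1, h2, h3⟩ := h
  have hi : i < (σ.take n).length := by
    by_contra hc
    rw [List.getD_eq_default _ _ (by omega)] at h2
    exact Bool.false_ne_true h2
  rw [List.length_take] at hi
  refine ⟨i, ?_, ?_, h3⟩
  · rw [← h1, List.take_take, min_eq_left (by omega)]
  · rw [List.getD_eq_getElem?_getD, List.getElem?_take, if_pos (by omega)] at h2
    rw [List.getD_eq_getElem?_getD]
    exact h2

end Pool.Agent.TH769.CD
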