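import Pool.Agent.TH769.CD.Inv

set_option autoImplicit false

/-!
The theorem for changes outside a computable set.
-/

namespace Pool.Agent.TH769.CD

open Encodable Pool.Agent.Helper227 Pool.Agent.H548R2.Post
open Nat.Partrec (Code)

attribute [local fun_prop] Primrec
attribute [local fun_prop] Primrec.id Primrec.const Primrec.comp Primrec.pair Primrec.fst Primrec.snd
attribute [local fun_prop] pf_add pf_mul pf_div pf_mod pf_pow pf_getD pf_take pf_append pf_cons
  pf_length pf_range pf_natPair pf_unpair pf_encode pf_testBit pf_xorb pf_andb pf_hlt pf_xor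

/-- the part of `X` outside `P` joined with the part of `X` in `P` -/
def FP (P X : ℕ → Bool) : ℕ → Bool := join (fun n => X n && !P n) (fun n => X n && P n)

theorem FP_apply (P X : ℕ → Bool) (n : ℕ) : FP P X n =
    if n % 2 = 0 then (X (n / 2) && !P (n / 2)) else (X (n / 2) && P (n / 2)) := rfl

theorem FP_congr {P P' X X' : ℕ → Bool} {k : ℕ} (h1 : ∀ i < k, P i = P' i)
    (h2 : ∀ i < k, X i = X' i) : ∀ i < k, FP P X i = FP P' X' i := by
  intro i hi
  rw [FP_apply, FP_apply, h1 (i / 2) (by omega), h2 (i / 2) (by omega)]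

theorem computable_tab {P : ℕ → Bool} (hP : Computable P) :
    Computable fun N : ℕ => pre P N := by
  have h : Computable₂ fun k i : ℕ => P (Nat.pair k i) :=
    hP.comp (Primrec₂.natPair.to_comp.comp Computable.fst Computable.snd)
  refine (computable_dtab h).of_eq fun N => ?_
  unfold dtab pre
  simp

theorem FP_S1 {P : ℕ → Bool} (hP : Computable P) (e : ℕ) : S1 fun x : List Bool × ℕ =>
    ∃ k : ℕ, k ≤ x.1.length ∧ ((Denumerable.ofNat Code e).eval
      (encode (pre (FP (ext (pre P k)) (ext x.1)) k, x.2))).Dom := by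
  refine S1.ex (p := fun (x : List Bool × ℕ) (k : ℕ) => k ≤ x.1.length ∧
    ((Denumerable.ofNat Code e).eval
      (encode (pre (FP (ext (pre P k)) (ext x.1)) k, x.2))).Dom) (S1.and (S1.of_prim ?_) ?_)
  · exact pp_le (by fun_prop) (by fun_prop)
  · have h1 : Primrec fun y : ((List Bool × ℕ) × ℕ) × List Bool =>
        ((Denumerable.ofNat Code e, encode (pre (FP (ext y.2) (ext y.1.1.1)) y.1.2, y.1.1.2)) :
          Code × ℕ) := by
      refine Primrec.pair (Primrec.const _) (pf_encode (Primrec.pair (pf_pre ?_ (by fun_prop))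
        (by fun_prop)))
      simp only [FP_apply]
      refine Primrec.ite (pp_eq (by fun_prop) (by fun_prop)) ?_ ?_
      · exact pf_andb (pf_ext (by fun_prop) (by fun_prop))
          (Primrec.not.comp (pf_ext (by fun_prop) (by fun_prop)))
      · exact pf_andb (pf_ext (by fun_prop) (by fun_prop)) (pf_ext (by fun_prop) (by fun_prop))
    have h2 : Computable fun x : (List Bool × ℕ) × ℕ => (x, pre P x.2) :=
      Computable.id.pair ((computable_tab hP).comp Computable.snd)
    exact s1_eval.comp_computable (h1.to_comp.comp h2)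

theorem FP_index {P : ℕ → Bool} (hP : Computable P) (e : ℕ) :
    ∃ e' : ℕ, ∀ X : ℕ → Bool, WE X e' = WE (FP P X) e := by
  obtain ⟨c, hc⟩ := Nat.Partrec.Code.exists_code.1 (FP_S1 hP e).re
  refine ⟨encode c, fun X => ?_⟩
  ext m
  simp only [WE, Set.mem_ofPred_eq, Denumerable.ofNat_encode]
  have h1 : (∃ k : ℕ, (c.eval (encode ((List.range k).map X, m))).Dom) ↔
      ∃ L : ℕ, ∃ k : ℕ, k ≤ (pre X L).length ∧ ((Denumerable.ofNat Code e).eval
        (encode (pre (FP (ext (pre P k)) (ext (pre X L))) k, m))).Dom := by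
    refine exists_congr fun k => ?_
    rw [hc]
    simp [Part.assert, pre]
  rw [h1]
  have h2 : ∀ L k, k ≤ L → pre (FP (ext (pre P k)) (ext (pre X L))) k = pre (FP P X) k := by
    intro L k hk
    refine T03_pre (s := k) (fun i hi => ?_) le_rfl
    exact FP_congr (k := k) (fun i hi => ext_pre_eq hi) (fun i hi => ext_pre_eq (by omega)) i hi
  constructor
  · rintro ⟨L, k, hk, h3⟩
    rw [length_pre] at hk
    rw [h2 L k hk] at h3
    exact ⟨k, h3⟩
  · rintro ⟨k, h3⟩
    refine ⟨k, k, by rw [length_pre], ?_⟩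
    rw [h2 k k le_rfl]
    exact h3

theorem tLe_of_bool2 {Y A B : ℕ → Bool} {g : Bool → Bool → Bool} {f1 f2 : ℕ → ℕ}
    (hf1 : Computable f1) (hf2 : Computable f2)
    (h : ∀ n, Y n = g (A (f1 n)) (A (f2 n))) (hAB : TLe A B) : TLe Y B := by
  refine TuringReducible.trans (?_ : TLe Y A) hAB
  rw [tLe_iff_SI]
  have q : SI A fun x : ℕ × Bool => ∃ y : Bool × Bool,
      (A (f1 x.1) = y.1 ∧ A (f2 x.1) = y.2) ∧ g y.1 y.2 = x.2 := by
    refine SI.ex (p := fun (x : ℕ × Bool) (y : Bool × Bool) =>
      (A (f1 x.1) = y.1 ∧ A (f2 x.1) = y.2) ∧ g y.1 y.2 = x.2)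
      (SI.and (SI.and ?_ ?_) (SI.of_prim (pp_eq ?_ (by fun_prop))))
    · exact SI.comp_computable (f := fun w : (ℕ × Bool) × (Bool × Bool) => (f1 w.1.1, w.2.1))
        (SI.query (B := A)) ((hf1.comp (Computable.fst.comp Computable.fst)).pair
          (Computable.fst.comp Computable.snd))
    · exact SI.comp_computable (f := fun w : (ℕ × Bool) × (Bool × Bool) => (f2 w.1.1, w.2.2))
        (SI.query (B := A)) ((hf2.comp (Computable.fst.comp Computable.fst)).pair
          (Computable.snd.comp Computable.snd))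
    · exact (Primrec.dom_bool₂ g).comp (by fun_prop) (by fun_prop)
  refine q.of_eq fun x => ?_
  constructor
  · rintro ⟨⟨a, b⟩, ⟨h1, h2⟩, h3⟩
    simp only at h1 h2 h3
    rw [h, h1, h2, h3]
  · intro h1
    exact ⟨(A (f1 x.1), A (f2 x.1)), ⟨rfl, rfl⟩, by rw [← h1, h]⟩

theorem le_FP (P X : ℕ → Bool) : TLe X (FP P X) := by
  have hf1 : Computable fun n : ℕ => 2 * n := by
    have : Primrec fun n : ℕ => 2 * n := by fun_prop
    exact this.to_comp
  have hf2 : Computable fun n : ℕ => 2 * n + 1 := by
    have : Primrec fun n : ℕ => 2 * n + 1 := by fun_prop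
    exact this.to_comp
  refine tLe_of_bool2 (A := FP P X) (g := or) hf1 hf2 (fun n => ?_) (TuringReducible.refl _)
  rw [FP_apply, FP_apply, if_pos (by omega), if_neg (by omega), show 2 * n / 2 = n by omega,
    show (2 * n + 1) / 2 = n by omega]
  cases X n <;> cases P n <;> rfl

theorem FP_le {P : ℕ → Bool} (hP : Computable P) (X : ℕ → Bool) : TLe (FP P X) X := by
  rw [tLe_iff_SI]
  have q : SI X fun x : ℕ × Bool => ∃ b : Bool, X (x.1 / 2) = b ∧
      (if x.1 % 2 = 0 then (b && !P (x.1 / 2)) else (b && P (x.1 / 2))) = x.2 := by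
    refine SI.ex (p := fun (x : ℕ × Bool) (b : Bool) => X (x.1 / 2) = b ∧
      (if x.1 % 2 = 0 then (b && !P (x.1 / 2)) else (b && P (x.1 / 2))) = x.2)
      (SI.and ?_ ?_)
    · exact (SI.query (B := X)).comp (f := fun w : (ℕ × Bool) × Bool => (w.1.1 / 2, w.2))
        (by fun_prop)
    · have h0 : SI X fun x : ((ℕ × Bool) × Bool) × Bool =>
          (if x.1.1.1 % 2 = 0 then (x.1.2 && !x.2) else (x.1.2 && x.2)) = x.1.1.2 := by
        refine SI.of_prim (pp_eq (Primrec.ite (pp_eq (by fun_prop) (by fun_prop)) ?_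
          (by fun_prop)) (by fun_prop))
        exact pf_andb (by fun_prop) (Primrec.not.comp (by fun_prop))
      have h1 : Primrec fun w : (ℕ × Bool) × Bool => w.1.1 / 2 := by fun_prop
      exact SI.comp_computable (f := fun w : (ℕ × Bool) × Bool => (w, P (w.1.1 / 2))) h0
        (Computable.id.pair (hP.comp h1.to_comp))
  refine q.of_eq fun x => ?_
  rw [FP_apply]
  constructor
  · rintro ⟨b, h1, h2⟩
    rw [h1]
    exact h2
  · intro h
    exact ⟨X (x.1 / 2), rfl, h⟩

/-- For every computable set `P` there is an index `e` which solves Post's problem and which is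
invariant under all changes of the oracle outside `P` by sets computable from the part of the
oracle in `P`. -/
theorem main_set (P : ℕ → Bool) (hP : Computable P) : ∃ e : ℕ,
    (∀ X : ℕ → Bool, TLe X (chr (WE X e)) ∧ ¬ TLe (chr (WE X e)) X ∧
      TLe (chr (WE X e)) (jump X) ∧ ¬ TLe (jump X) (chr (WE X e))) ∧
    ∀ X Y : ℕ → Bool, (∀ n, P n = true → X n = Y n) →
      TLe (fun n => xor (X n) (Y n)) (fun n => X n && P n) →
      TLe (chr (WE X e)) (chr (WE Y e)) ∧ TLe (chr (WE Y e)) (chr (WE X e)) := by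
  obtain ⟨e, h1, h2⟩ := main_join
  obtain ⟨e', he'⟩ := FP_index hP e
  refine ⟨e', fun X => ?_, fun X Y hXY hle => ?_⟩
  · rw [he']
    obtain ⟨a, b, c, d⟩ := h1 (FP P X)
    refine ⟨TuringReducible.trans (le_FP P X) a, fun h => b (TuringReducible.trans h (le_FP P X)),
      TuringReducible.trans c (FP_le hP X).jump, fun h => d (TuringReducible.trans
        (FP_le hP X).jump h)⟩
  · rw [he', he']
    have hZ : (fun n => Y n && P n) = fun n => X n && P n := by
      funext n
      cases hp : P n with
      | false => simp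
      | true => rw [hXY n hp]
    have hxor : (fun n => xor ((fun n => X n && !P n) n) ((fun n => Y n && !P n) n)) =
        fun n => xor (X n) (Y n) := by
      funext n
      cases hp : P n with
      | false => simp only [hp, Bool.not_false, Bool.and_true]
      | true => simp [hp, hXY n hp]
    have := h2 (fun n => X n && !P n) (fun n => Y n && !P n) (fun n => X n && P n)
      (by rw [hxor]; exact hle)
    unfold FP
    rw [hZ]
    exact this

end Pool.Agent.TH769.CD
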