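import Pool.Agent.TH769.CD.Deg

set_option autoImplicit false

/-!
Invariance of the operator.
-/

namespace Pool.Agent.TH769.CD

open Encodable Pool.Agent.Helper227 Pool.Agent.H548R2.Post
open Nat.Partrec (Code)

attribute [local fun_prop] Primrec
attribute [local fun_prop] Primrec.id Primrec.const Primrec.comp Primrec.pair Primrec.fst Primrec.snd
attribute [local fun_prop] pf_add pf_mul pf_div pf_mod pf_pow pf_getD pf_take pf_append pf_cons
  pf_length pf_range pf_natPair pf_unpair pf_encode pf_testBit pf_xorb pf_andb pf_hlt pf_xor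

/-- the number `z` is in a column above the string `π` -/
def Col (π : List Bool) (z : ℕ) : Prop := ∃ ρ : List Bool, z.unpair.1 = encode ρ ∧ π <+: ρ

theorem pp_Col (π : List Bool) : PrimrecPred fun z : ℕ => Col π z := by
  have h1 : Primrec fun z : ℕ => ((decode (α := List Bool) z.unpair.1).getD []) :=
    Primrec.option_getD.comp (Primrec.decode.comp (by fun_prop)) (by fun_prop)
  have h : PrimrecPred fun z : ℕ => z.unpair.1 =
      encode ((decode (α := List Bool) z.unpair.1).getD []) ∧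
      ((decode (α := List Bool) z.unpair.1).getD []).take π.length = π :=
    PrimrecPred.and (pp_eq (by fun_prop) (pf_encode h1))
      (pp_eq (pf_take (by fun_prop) h1) (by fun_prop))
  refine h.of_eq fun z => ?_
  constructor
  · rintro ⟨h2, h3⟩
    exact ⟨_, h2, by rw [← h3]; exact List.take_prefix _ _⟩
  · rintro ⟨ρ, h2, h3⟩
    rw [h2]
    simp only [encodek, Option.getD_some]
    exact ⟨trivial, (List.prefix_iff_eq_take.1 h3).symm⟩

/-- stage `t` has the guesses `π` and `z` is not yet in the set -/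
def Out (X : ℕ → Bool) (π : List Bool) (t z : ℕ) : Prop :=
  (dl (kn X) t).take π.length = π ∧ ¬ VV (AA X) t 0 z

theorem si_Out (X : ℕ → Bool) (π : List Bool) : SI X fun x : ℕ × ℕ => Out X π x.1 x.2 := by
  have h : PrimrecPred fun x : List Bool × ℕ × ℕ =>
      ((dls (kn (ext x.1)) (x.2.1 + 1)).getD x.2.1 []).take π.length = π ∧
        ¬ VF x.1 x.2.1 x.2.2 :=
    PrimrecPred.and (pp_eq (pf_take (by fun_prop) (pf_dlF (by fun_prop) (by fun_prop)))
      (by fun_prop)) (PrimrecPred.not (pp_VF (by fun_prop) (by fun_prop) (by fun_prop)))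
  refine (si_of_fin (Q := fun σ t z => ((dls (kn (ext σ)) (t + 1)).getD t []).take π.length = π ∧
    ¬ VF σ t z) h X).of_eq fun x => ?_
  unfold Out
  rw [delta_eq (S := x.1 + 1) (by omega) (Nat.lt_succ_self _), VF_iff le_rfl]

/-- The main step of the proof of invariance. -/
theorem WX_sh_le (X : ℕ → Bool) (i : ℕ) (hi : TP (kn X) i = true)
    (hY : TLe (sh (DD (cI X)) (2 ^ i) X) X) : TLe (WX (sh (DD (cI X)) (2 ^ i) X)) (WX X) := by
  classical
  obtain ⟨Y, hYe⟩ : ∃ Y, Y = sh (DD (cI X)) (2 ^ i) X := ⟨_, rfl⟩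
  rw [← hYe] at hY ⊢
  have hYW : TLe Y (WX X) := TuringReducible.trans hY (le_WX X)
  have hkn : kn Y = kn X := by
    rw [hYe]
    unfold kn
    rw [od_sh]
  have hAY : ∀ s z, AA Y s 0 z ↔ AA X s (0 ^^^ 2 ^ i) z := fun s z => by
    rw [hYe]
    exact AA_sh X (2 ^ i) 0 s z
  have hS := sys X
  obtain ⟨M, hM⟩ := inv hS i hi 0
  obtain ⟨s1, hs1⟩ := inv_late hS (i + 1) (0 ^^^ 2 ^ i)
  have hVY : ∀ z, Vi Y z ↔ ∃ s, AA X s (0 ^^^ 2 ^ i) z := fun z =>
    exists_congr fun s => hAY s z
  have hVVY : ∀ t z, VV (AA Y) t 0 z ↔ VV (AA X) t (0 ^^^ 2 ^ i) z := fun t z =>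
    exists_congr fun s => and_congr_right fun _ => hAY s z
  let F : List ℕ := (List.range M).filter (fun z => decide (¬ Vi Y z))
  have hneg : SI (WX X) fun z : ℕ => ¬ Vi Y z := by
    have a1 : SI (WX X) fun z : ℕ => (Col (pre (TP (kn X)) (i + 1)) z ∧ M ≤ z) ∧
        WX X (2 * z + 1) = false :=
      SI.and (SI.of_prim (PrimrecPred.and (pp_Col _) (pp_le (by fun_prop) (by fun_prop))))
        (SI.query.comp (f := fun z : ℕ => (2 * z + 1, false)) (by fun_prop))
    have a2 : SI (WX X) fun z : ℕ => z ∈ F := SI.of_prim (pp_mem (by fun_prop) (by fun_prop))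
    have a3 : SI (WX X) fun z : ℕ => ¬ Col (pre (TP (kn X)) (i + 1)) z ∧
        ∃ t, (s1 ≤ t ∧ z ≤ t) ∧ Out Y (pre (TP (kn X)) (i + 1)) t z := by
      refine SI.and (SI.of_prim (PrimrecPred.not (pp_Col _))) ?_
      refine SI.ex (p := fun (z t : ℕ) => (s1 ≤ t ∧ z ≤ t) ∧
        Out Y (pre (TP (kn X)) (i + 1)) t z) (SI.and (SI.of_prim (PrimrecPred.and
          (pp_le (by fun_prop) (by fun_prop)) (pp_le (by fun_prop) (by fun_prop)))) ?_)
      exact ((si_Out Y (pre (TP (kn X)) (i + 1))).trans hYW).comp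
        (f := fun x : ℕ × ℕ => (x.2, x.1)) (by fun_prop)
    refine (SI.or a1 (SI.or a2 a3)).of_eq fun z => ?_
    constructor
    · rintro (⟨⟨h1, h2⟩, h3⟩ | h | ⟨h1, t, ⟨h2, h3⟩, h4, h5⟩)
      · rw [hVY, ← hM z h2 h1]
        intro h4
        rw [(WX_odd X z).2 h4] at h3
        exact Bool.false_ne_true h3.symm
      · simpa [F] using (List.mem_filter.1 h).2
      · rw [length_pre, hkn] at h4
        intro h6
        exact h5 ((hVVY t z).2 (hs1 t h2 h4 z h3 h1 ((hVY z).1 h6)))
    · intro h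
      by_cases hMz : z < M
      · exact Or.inr (Or.inl (List.mem_filter.2 ⟨List.mem_range.2 hMz, by simpa using h⟩))
      · by_cases hc : Col (pre (TP (kn X)) (i + 1)) z
        · refine Or.inl ⟨⟨hc, by omega⟩, ?_⟩
          rw [hVY, ← hM z (by omega) hc] at h
          cases hw : WX X (2 * z + 1) with
          | false => rfl
          | true => exact absurd ((WX_odd X z).1 hw) h
        · obtain ⟨t, ht, hst⟩ := hS.inf (i + 1) (max s1 z)
          refine Or.inr (Or.inr ⟨hc, t, ⟨by omega, by omega⟩, ?_, fun h5 => ?_⟩)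
          · rw [length_pre, hkn]
            exact hst
          · exact h ((Vi_iff Y z).2 ⟨t, h5⟩)
  have hpos : SI (WX X) fun m : ℕ => WX Y m = true := (si_WX Y).trans hYW
  have hev : SI (WX X) fun m : ℕ => m % 2 = 0 ∧ Y (m / 2) = false :=
    SI.and (SI.of_prim (pp_eq (by fun_prop) (by fun_prop)))
      (((SI.query (B := Y)).trans hYW).comp (f := fun m : ℕ => (m / 2, false)) (by fun_prop))
  have hod : SI (WX X) fun m : ℕ => m % 2 = 1 ∧ ¬ Vi Y (m / 2) :=
    SI.and (SI.of_prim (pp_eq (by fun_prop) (by fun_prop)))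
      (hneg.comp (f := fun m : ℕ => m / 2) (by fun_prop))
  rw [tLe_iff_SI]
  have h4 : SI (WX X) fun x : ℕ × Bool => (WX Y x.1 = true ∧ x.2 = true) ∨
      (((x.1 % 2 = 0 ∧ Y (x.1 / 2) = false) ∨ (x.1 % 2 = 1 ∧ ¬ Vi Y (x.1 / 2))) ∧
        x.2 = false) := by
    refine SI.or (SI.and (hpos.comp Primrec.fst) (SI.of_prim ?_))
      (SI.and ((SI.or hev hod).comp (f := fun x : ℕ × Bool => x.1) Primrec.fst) (SI.of_prim ?_))
    · exact Primrec.eq.comp Primrec.snd (Primrec.const true)
    · exact Primrec.eq.comp Primrec.snd (Primrec.const false)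
  refine h4.of_eq fun x => ?_
  rcases x with ⟨m, b⟩
  cases b with
  | true => simp
  | false =>
    rcases Nat.even_or_odd' m with ⟨n, rfl | rfl⟩
    · have e1 : (2 * n) % 2 = 0 := by omega
      have e2 : (2 * n) / 2 = n := by omega
      simp [e1, e2, WX_even]
    · have e1 : (2 * n + 1) % 2 = 1 := by omega
      have e2 : (2 * n + 1) / 2 = n := by omega
      have e3 : WX Y (2 * n + 1) = false ↔ ¬ Vi Y n := by
        rw [← WX_odd, Bool.not_eq_true]
      simp only [e1, e2, e3]
      simp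

/-- Sets computable from the second half have a total index. -/
theorem exists_total {X : ℕ → Bool} {c : ℕ → Bool} (hc : TLe c (od X)) :
    ∃ i, TP (kn X) i = true ∧ cI X i = c := by
  have h1 : SI (od X) fun x : ℕ × Bool => c x.1 = x.2 := tLe_iff_SI.1 hc
  have h2 : SI (od X) fun m : ℕ => m ∈ {m | c m = true} :=
    h1.comp (f := fun m : ℕ => (m, true)) (by fun_prop)
  have h3 : SI (od X) fun m : ℕ => m ∈ {m | c m = false} :=
    h1.comp (f := fun m : ℕ => (m, false)) (by fun_prop)
  obtain ⟨e0, he0⟩ := ceIn_iff_exists_WE.1 (SI.iff_ceIn.2 h2)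
  obtain ⟨e1, he1⟩ := ceIn_iff_exists_WE.1 (SI.iff_ceIn.2 h3)
  have g0 : ∀ m, c m = true ↔ ∃ s, En s e0 m (od X) := fun m => by
    rw [← mem_WE_iff, ← he0]
    rfl
  have g1 : ∀ m, c m = false ↔ ∃ s, En s e1 m (od X) := fun m => by
    rw [← mem_WE_iff, ← he1]
    rfl
  refine ⟨Nat.pair e0 e1, ?_, ?_⟩
  · rw [TP_iff]
    intro t
    obtain ⟨a, ha⟩ := bdd_lt t (fun m s => En s e0 m (od X) ∨ En s e1 m (od X)) (fun m _ => by
      cases hm : c m with
      | true =>
        obtain ⟨s, hs⟩ := (g0 m).1 hm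
        exact ⟨s, fun b hb => Or.inl (En_mono hb hs)⟩
      | false =>
        obtain ⟨s, hs⟩ := (g1 m).1 hm
        exact ⟨s, fun b hb => Or.inr (En_mono hb hs)⟩)
    refine ⟨a, kn_iff.2 fun m hm => ?_⟩
    rw [Nat.unpair_pair]
    exact ha m hm a le_rfl
  · funext m
    have h5 : cI X (Nat.pair e0 e1) m = true ↔ ∃ s, En s e0 m (od X) ∧ ¬ En s e1 m (od X) := by
      unfold cI
      rw [@decide_eq_true_iff _ (Classical.propDecidable _), Nat.unpair_pair]
    rw [Bool.eq_iff_iff, h5]
    constructor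
    · rintro ⟨s, hs, -⟩
      exact (g0 m).2 ⟨s, hs⟩
    · intro hm
      obtain ⟨s, hs⟩ := (g0 m).1 hm
      refine ⟨s, hs, fun h6 => ?_⟩
      have := (g1 m).2 ⟨s, h6⟩
      rw [hm] at this
      exact Bool.false_ne_true this.symm

/-- The values at two oracles with the same second half, whose first halves differ by a set
computable from the second half. -/
theorem WX_le_of (A B Z : ℕ → Bool) (h : TLe (fun n => xor (A n) (B n)) Z) :
    TLe (WX (join B Z)) (WX (join A Z)) := by
  have hod : od (join A Z) = Z := by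
    funext i
    unfold od join
    rw [if_neg (by omega), show (2 * i + 1) / 2 = i by omega]
  obtain ⟨i, hi, hc⟩ := exists_total (X := join A Z) (c := fun n => xor (A n) (B n))
    (by rw [hod]; exact h)
  have hsh : sh (DD (cI (join A Z))) (2 ^ i) (join A Z) = join B Z := by
    funext m
    unfold sh
    rcases Nat.even_or_odd' m with ⟨n, rfl | rfl⟩
    · rw [DD_pow, hc]
      unfold join
      rw [if_pos (by omega), if_pos (by omega), show 2 * n / 2 = n by omega]
      show xor (A n) (xor (A n) (B n)) = B n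
      cases A n <;> cases B n <;> rfl
    · rw [DD_odd, Bool.xor_false]
      unfold join
      rw [if_neg (by omega), if_neg (by omega)]
  have hZ : TLe Z (join A Z) := by
    have hf : Computable fun n : ℕ => 2 * n + 1 := by
      have : Primrec fun n : ℕ => 2 * n + 1 := by fun_prop
      exact this.to_comp
    refine tLe_of_computable hf fun n => ?_
    unfold join
    rw [if_neg (by omega), show (2 * n + 1) / 2 = n by omega]
  have hA : TLe A (join A Z) := by
    have hf : Computable fun n : ℕ => 2 * n := by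
      have : Primrec fun n : ℕ => 2 * n := by fun_prop
      exact this.to_comp
    refine tLe_of_computable hf fun n => ?_
    unfold join
    rw [if_pos (by omega), show (2 * n) / 2 = n by omega]
  have hle : TLe (join B Z) (join A Z) := by
    rw [tLe_iff_SI]
    have q1 : SI (join A Z) fun x : ℕ × Bool => A x.1 = x.2 := tLe_iff_SI.1 hA
    have q2 : SI (join A Z) fun x : ℕ × Bool => xor (A x.1) (B x.1) = x.2 :=
      (tLe_iff_SI.1 h).trans hZ
    have q3 : SI (join A Z) fun x : ℕ × Bool => Z x.1 = x.2 := tLe_iff_SI.1 hZ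
    have q4 : SI (join A Z) fun x : ℕ × Bool => ∃ y : Bool × Bool,
        (A x.1 = y.1 ∧ xor (A x.1) (B x.1) = y.2) ∧ xor y.1 y.2 = x.2 := by
      refine SI.ex (p := fun (x : ℕ × Bool) (y : Bool × Bool) =>
        (A x.1 = y.1 ∧ xor (A x.1) (B x.1) = y.2) ∧ xor y.1 y.2 = x.2)
        (SI.and (SI.and ?_ ?_) (SI.of_prim (pp_eq (by fun_prop) (by fun_prop))))
      · exact q1.comp (f := fun w : (ℕ × Bool) × (Bool × Bool) => (w.1.1, w.2.1)) (by fun_prop)
      · exact q2.comp (f := fun w : (ℕ × Bool) × (Bool × Bool) => (w.1.1, w.2.2)) (by fun_prop)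
    have q5 : SI (join A Z) fun x : ℕ × Bool => B x.1 = x.2 := by
      refine q4.of_eq fun x => ?_
      constructor
      · rintro ⟨⟨a, b⟩, ⟨h1, h2⟩, h3⟩
        rw [← h3]
        simp only at h1 h2 ⊢
        rw [← h1, ← h2]
        cases A x.1 <;> cases B x.1 <;> rfl
      · intro h1
        refine ⟨(A x.1, xor (A x.1) (B x.1)), ⟨rfl, rfl⟩, ?_⟩
        rw [← h1]
        cases A x.1 <;> cases B x.1 <;> rfl
    have q6 : SI (join A Z) fun x : ℕ × Bool => (x.1 % 2 = 0 ∧ B (x.1 / 2) = x.2) ∨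
        (¬ x.1 % 2 = 0 ∧ Z (x.1 / 2) = x.2) :=
      SI.or (SI.and (SI.of_prim (pp_eq (by fun_prop) (by fun_prop)))
          (q5.comp (f := fun x : ℕ × Bool => (x.1 / 2, x.2)) (by fun_prop)))
        (SI.and (SI.of_prim (PrimrecPred.not (pp_eq (by fun_prop) (by fun_prop))))
          (q3.comp (f := fun x : ℕ × Bool => (x.1 / 2, x.2)) (by fun_prop)))
    refine q6.of_eq fun x => ?_
    unfold join
    split_ifs with hx <;> simp [hx]
  have := WX_sh_le (join A Z) i hi (by rw [hsh]; exact hle)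
  rwa [hsh] at this

theorem chr_WX {X : ℕ → Bool} : chr {m | WX X m = true} = WX X := by
  funext m
  simp [chr]

/-- The theorem for joins. -/
theorem main_join : ∃ e : ℕ,
    (∀ X : ℕ → Bool, TLe X (chr (WE X e)) ∧ ¬ TLe (chr (WE X e)) X ∧
      TLe (chr (WE X e)) (jump X) ∧ ¬ TLe (jump X) (chr (WE X e))) ∧
    ∀ A B Z : ℕ → Bool, TLe (fun n => xor (A n) (B n)) Z →
      TLe (chr (WE (join A Z) e)) (chr (WE (join B Z) e)) ∧
      TLe (chr (WE (join B Z) e)) (chr (WE (join A Z) e)) := by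
  obtain ⟨e, he⟩ := exists_index'
  refine ⟨e, fun X => ?_, fun A B Z h => ?_⟩
  · rw [he X, chr_WX]
    exact ⟨le_WX X, not_WX_le X, WX_le_jump X, not_jump_le_WX X⟩
  · rw [he, he, chr_WX, chr_WX]
    refine ⟨WX_le_of B A Z ?_, WX_le_of A B Z h⟩
    have : (fun n => xor (B n) (A n)) = fun n => xor (A n) (B n) := by
      funext n
      exact Bool.xor_comm _ _
    rw [this]
    exact h

end Pool.Agent.TH769.CD
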