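import Pool.Agent.TH769.CD.Conc

set_option autoImplicit false

/-!
The construction is primitive recursive in finite data: basic functions.
-/

namespace Pool.Agent.TH769.CD

open Encodable Pool.Agent.Helper227 Pool.Agent.H548R2.Post
open Nat.Partrec (Code)

attribute [local fun_prop] Primrec
attribute [local fun_prop] Primrec.id Primrec.const Primrec.comp Primrec.pair Primrec.fst Primrec.snd

section basic

variable {α β γ : Type} [Primcodable α] [Primcodable β] [Primcodable γ]

@[local fun_prop] theorem pf_add {f g : α → ℕ} (hf : Primrec f) (hg : Primrec g) :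
    Primrec fun a => f a + g a := Primrec.nat_add.comp hf hg

@[local fun_prop] theorem pf_mul {f g : α → ℕ} (hf : Primrec f) (hg : Primrec g) :
    Primrec fun a => f a * g a := Primrec.nat_mul.comp hf hg

@[local fun_prop] theorem pf_div {f g : α → ℕ} (hf : Primrec f) (hg : Primrec g) :
    Primrec fun a => f a / g a := Primrec.nat_div.comp hf hg

@[local fun_prop] theorem pf_mod {f g : α → ℕ} (hf : Primrec f) (hg : Primrec g) :
    Primrec fun a => f a % g a := Primrec.nat_mod.comp hf hg

@[local fun_prop] theorem pf_pow {f g : α → ℕ} (hf : Primrec f) (hg : Primrec g) :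
    Primrec fun a => f a ^ g a := primrec_pow.comp hf hg

@[local fun_prop] theorem pf_getD {f : α → List β} {g : α → ℕ} {d : β} (hf : Primrec f)
    (hg : Primrec g) : Primrec fun a => (f a).getD (g a) d := (Primrec.list_getD d).comp hf hg

@[local fun_prop] theorem pf_take {f : α → List β} {g : α → ℕ} (hg : Primrec g)
    (hf : Primrec f) : Primrec fun a => (f a).take (g a) := Primrec.list_take.comp hg hf

@[local fun_prop] theorem pf_append {f g : α → List β} (hf : Primrec f) (hg : Primrec g) :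
    Primrec fun a => f a ++ g a := Primrec.list_append.comp hf hg

@[local fun_prop] theorem pf_cons {f : α → β} {g : α → List β} (hf : Primrec f) (hg : Primrec g) :
    Primrec fun a => f a :: g a := Primrec.list_cons.comp hf hg

@[local fun_prop] theorem pf_length {f : α → List β} (hf : Primrec f) :
    Primrec fun a => (f a).length := Primrec.list_length.comp hf

@[local fun_prop] theorem pf_range {f : α → ℕ} (hf : Primrec f) :
    Primrec fun a => List.range (f a) := Primrec.list_range.comp hf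

@[local fun_prop] theorem pf_natPair {f g : α → ℕ} (hf : Primrec f) (hg : Primrec g) :
    Primrec fun a => Nat.pair (f a) (g a) := Primrec₂.natPair.comp hf hg

@[local fun_prop] theorem pf_unpair {f : α → ℕ} (hf : Primrec f) :
    Primrec fun a => Nat.unpair (f a) := Primrec.unpair.comp hf

@[local fun_prop] theorem pf_encode {f : α → β} (hf : Primrec f) :
    Primrec fun a => encode (f a) := Primrec.encode.comp hf

@[local fun_prop] theorem pf_testBit {f g : α → ℕ} (hf : Primrec f) (hg : Primrec g) :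
    Primrec fun a => Nat.testBit (f a) (g a) := t48_testBit.comp hf hg

@[local fun_prop] theorem pf_xorb {f g : α → Bool} (hf : Primrec f) (hg : Primrec g) :
    Primrec fun a => xor (f a) (g a) := (Primrec.dom_bool₂ xor).comp hf hg

@[local fun_prop] theorem pf_andb {f g : α → Bool} (hf : Primrec f) (hg : Primrec g) :
    Primrec fun a => (f a && g a) := (Primrec.dom_bool₂ and).comp hf hg

@[local fun_prop] theorem pf_hlt {s e z : α → ℕ} {τ : α → List Bool} (hs : Primrec s)
    (he : Primrec e) (hz : Primrec z) (hτ : Primrec τ) :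
    Primrec fun a => hlt (s a) (e a) (z a) (τ a) :=
  primrec_hlt.comp (f := fun x : ℕ × ℕ × ℕ × List Bool => hlt x.1 x.2.1 x.2.2.1 x.2.2.2)
    (g := fun a => (s a, (e a, (z a, τ a)))) (hs.pair (he.pair (hz.pair hτ)))

theorem pp_exlt {f : α → ℕ} {p : α → ℕ → Prop} (hf : Primrec f)
    (hp : PrimrecPred fun x : α × ℕ => p x.1 x.2) : PrimrecPred fun a => ∃ b < f a, p a b :=
  PP.ex_lt hp hf

theorem pp_alllt {f : α → ℕ} {p : α → ℕ → Prop} (hf : Primrec f)
    (hp : PrimrecPred fun x : α × ℕ => p x.1 x.2) : PrimrecPred fun a => ∀ b < f a, p a b :=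
  PP.all_lt hp hf

theorem pp_imp {p q : α → Prop} (hp : PrimrecPred p) (hq : PrimrecPred q) :
    PrimrecPred fun a => p a → q a :=
  ((hp.not).or hq).of_eq fun _ => imp_iff_not_or.symm

theorem pp_eq {f g : α → β} (hf : Primrec f) (hg : Primrec g) : PrimrecPred fun a => f a = g a :=
  Primrec.eq.comp hf hg

theorem pp_le {f g : α → ℕ} (hf : Primrec f) (hg : Primrec g) : PrimrecPred fun a => f a ≤ g a :=
  Primrec.nat_le.comp hf hg

theorem pp_lt {f g : α → ℕ} (hf : Primrec f) (hg : Primrec g) : PrimrecPred fun a => f a < g a :=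
  Primrec.nat_lt.comp hf hg

theorem pp_mem {f : α → ℕ} {g : α → List ℕ} (hf : Primrec f) (hg : Primrec g) :
    PrimrecPred fun a => f a ∈ g a :=
  t37_mem.comp (f := fun a => (f a, g a)) (hf.pair hg)

theorem pf_decide {p : α → Prop} (hp : PrimrecPred p) (i : DecidablePred p) :
    Primrec fun a => @decide (p a) (i a) := hp.decide

@[local fun_prop] theorem pf_xor {f g : α → ℕ} (hf : Primrec f) (hg : Primrec g) :
    Primrec fun a => f a ^^^ g a := by
  have h : Primrec fun x : ℕ × ℕ => x.1 ^^^ x.2 := by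
    refine Primrec.of_graph ⟨fun x : ℕ × ℕ => 2 ^ (x.1 + x.2), by fun_prop, ?_⟩ ?_
    · rintro ⟨a, b⟩
      refine (Nat.xor_lt_two_pow ?_ ?_).le
      · exact Nat.lt_two_pow_self.trans_le (Nat.pow_le_pow_right (by norm_num) (by simp))
      · exact Nat.lt_two_pow_self.trans_le (Nat.pow_le_pow_right (by norm_num) (by simp))
    · have h1 : PrimrecPred fun y : (ℕ × ℕ) × ℕ => ∀ i < y.1.1 + y.1.2 + y.2,
          y.2.testBit i = xor (y.1.1.testBit i) (y.1.2.testBit i) := by
        refine pp_alllt (by fun_prop) (pp_eq (by fun_prop) (by fun_prop))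
      refine h1.of_eq ?_
      rintro ⟨⟨a, b⟩, c⟩
      constructor
      · intro h2
        refine Nat.eq_of_testBit_eq fun i => ?_
        rw [Nat.testBit_xor]
        by_cases hi : i < a + b + c
        · exact (h2 i hi).symm
        · have h3 : ∀ x, x ≤ i → x.testBit i = false := fun x hx =>
            Nat.testBit_lt_two_pow (lt_of_le_of_lt hx Nat.lt_two_pow_self)
          rw [h3 a (by omega), h3 b (by omega), h3 c (by omega)]
          rfl
      · intro h2 i _
        simp only at h2 ⊢
        rw [← h2, Nat.testBit_xor]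
  exact h.comp (f := fun x : ℕ × ℕ => x.1 ^^^ x.2) (g := fun a => (f a, g a)) (hf.pair hg)

theorem pf_pre {Y : α → ℕ → Bool} {u : α → ℕ} (hY : Primrec fun x : α × ℕ => Y x.1 x.2)
    (hu : Primrec u) : Primrec fun a => pre (Y a) (u a) :=
  Primrec.list_map (Primrec.list_range.comp hu) hY

theorem pp_En {Y : α → ℕ → Bool} {t e z : α → ℕ} (hY : Primrec fun x : α × ℕ => Y x.1 x.2)
    (ht : Primrec t) (he : Primrec e) (hz : Primrec z) :
    PrimrecPred fun a => En (t a) (e a) (z a) (Y a) := by
  have h : PrimrecPred fun a => ∃ u < t a + 1, hlt (t a) (e a) (z a) (pre (Y a) u) = true := by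
    refine pp_exlt (by fun_prop) (pp_eq ?_ (by fun_prop))
    refine pf_hlt (by fun_prop) (by fun_prop) (by fun_prop) ?_
    refine pf_pre (Y := fun x : α × ℕ => Y x.1) ?_ Primrec.snd
    exact hY.comp (f := fun x : α × ℕ => Y x.1 x.2) (g := fun y : (α × ℕ) × ℕ => (y.1.1, y.2))
      (by fun_prop)
  refine h.of_eq fun a => ?_
  unfold En
  simp only [Nat.lt_succ_iff]

theorem pf_ext {σ : α → List Bool} {i : α → ℕ} (hσ : Primrec σ) (hi : Primrec i) :
    Primrec fun a => ext (σ a) (i a) := pf_getD hσ hi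

theorem pp_En_od {σ : α → List Bool} {t e z : α → ℕ} (hσ : Primrec σ)
    (ht : Primrec t) (he : Primrec e) (hz : Primrec z) :
    PrimrecPred fun a => En (t a) (e a) (z a) (od (ext (σ a))) := by
  refine pp_En ?_ ht he hz
  unfold od
  exact pf_ext (by fun_prop) (by fun_prop)

theorem pf_kn {σ : α → List Bool} {i t s : α → ℕ} (hσ : Primrec σ)
    (hi : Primrec i) (ht : Primrec t) (hs : Primrec s) :
    Primrec fun a => kn (ext (σ a)) (i a) (t a) (s a) := by
  classical
  refine (PrimrecPred.decide (p := fun a => ∀ m < t a, En (s a) (i a).unpair.1 m (od (ext (σ a))) ∨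
    En (s a) (i a).unpair.2 m (od (ext (σ a)))) ?_).of_eq fun a => ?_
  · refine pp_alllt ht (PrimrecPred.or ?_ ?_)
    · exact pp_En_od (by fun_prop) (by fun_prop) (by fun_prop) (by fun_prop)
    · exact pp_En_od (by fun_prop) (by fun_prop) (by fun_prop) (by fun_prop)
  · rw [Bool.eq_iff_iff, kn_iff, decide_eq_true_iff]

theorem pf_cS {σ : α → List Bool} {S i m : α → ℕ} (hσ : Primrec σ) (hS : Primrec S)
    (hi : Primrec i) (hm : Primrec m) :
    Primrec fun a => cS (ext (σ a)) (S a) (i a) (m a) := by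
  classical
  refine (PrimrecPred.decide (p := fun a => ∃ s < S a + 1,
    En s (i a).unpair.1 (m a) (od (ext (σ a))) ∧
    ¬ En s (i a).unpair.2 (m a) (od (ext (σ a)))) ?_).of_eq fun a => ?_
  · refine pp_exlt (by fun_prop) (PrimrecPred.and ?_ (PrimrecPred.not ?_))
    · exact pp_En_od (by fun_prop) (by fun_prop) (by fun_prop) (by fun_prop)
    · exact pp_En_od (by fun_prop) (by fun_prop) (by fun_prop) (by fun_prop)
  · unfold cS
    rw [decide_eq_decide]

theorem pf_nb {σ : α → List Bool} {L : α → List (List Bool)} {s : α → ℕ} {τ : α → List Bool}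
    (hσ : Primrec σ) (hL : Primrec L) (hs : Primrec s) (hτ : Primrec τ) :
    Primrec fun a => nb (kn (ext (σ a))) (L a) (s a) (τ a) := by
  classical
  refine (PrimrecPred.decide (p := fun a => ∀ t < s a,
    ((L a).getD t []).take ((τ a).length + 1) = τ a ++ [true] →
      kn (ext (σ a)) (τ a).length (t + 1) (s a) = true) ?_).of_eq fun a => ?_
  · refine pp_alllt hs (pp_imp (pp_eq (by fun_prop) (by fun_prop)) (pp_eq ?_ (by fun_prop)))
    exact pf_kn (by fun_prop) (by fun_prop) (by fun_prop) (by fun_prop)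
  · unfold nb
    rw [decide_eq_decide]

theorem pf_bld : Primrec fun x : (List Bool × List (List Bool) × ℕ) × ℕ =>
    bld (kn (ext x.1.1)) x.1.2.1 x.1.2.2 x.2 := by
  have hh : Primrec₂ fun (x : (List Bool × List (List Bool) × ℕ) × ℕ) (y : ℕ × List Bool) =>
      y.2 ++ [nb (kn (ext x.1.1)) x.1.2.1 x.1.2.2 y.2] := by
    have h1 : Primrec fun z : ((List Bool × List (List Bool) × ℕ) × ℕ) × (ℕ × List Bool) =>
        nb (kn (ext z.1.1.1)) z.1.1.2.1 z.1.1.2.2 z.2.2 :=
      pf_nb (by fun_prop) (by fun_prop) (by fun_prop) (by fun_prop)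
    have h2 : Primrec fun z : ((List Bool × List (List Bool) × ℕ) × ℕ) × (ℕ × List Bool) =>
      z.2.2 ++ [nb (kn (ext z.1.1.1)) z.1.1.2.1 z.1.1.2.2 z.2.2] := by
        refine pf_append (by fun_prop) (pf_cons h1 (by fun_prop))
    exact h2
  have h := Primrec.nat_rec' (f := fun x : (List Bool × List (List Bool) × ℕ) × ℕ => x.2)
    (g := fun _ => ([] : List Bool)) Primrec.snd (Primrec.const []) hh
  refine h.of_eq ?_
  rintro ⟨⟨σ, L, s⟩, i⟩
  induction i with
  | zero => rfl
  | succ i ih =>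
    change _ = bld (kn (ext σ)) L s i ++ [nb (kn (ext σ)) L s (bld (kn (ext σ)) L s i)]
    rw [← ih]

theorem pf_dls : Primrec fun x : List Bool × ℕ => dls (kn (ext x.1)) x.2 := by
  have hh : Primrec₂ fun (x : List Bool × ℕ) (y : ℕ × List (List Bool)) =>
      y.2 ++ [bld (kn (ext x.1)) y.2 y.1 y.1] := by
    have h1 : Primrec fun z : (List Bool × ℕ) × (ℕ × List (List Bool)) =>
        bld (kn (ext z.1.1)) z.2.2 z.2.1 z.2.1 :=
      pf_bld.comp (f := fun x : (List Bool × List (List Bool) × ℕ) × ℕ =>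
        bld (kn (ext x.1.1)) x.1.2.1 x.1.2.2 x.2)
        (g := fun z : (List Bool × ℕ) × (ℕ × List (List Bool)) =>
          ((z.1.1, (z.2.2, z.2.1)), z.2.1)) (by fun_prop)
    have h2 : Primrec fun z : (List Bool × ℕ) × (ℕ × List (List Bool)) =>
        z.2.2 ++ [bld (kn (ext z.1.1)) z.2.2 z.2.1 z.2.1] :=
      pf_append (by fun_prop) (pf_cons h1 (by fun_prop))
    exact h2
  have h := Primrec.nat_rec' (f := fun x : List Bool × ℕ => x.2)
    (g := fun _ => ([] : List (List Bool))) Primrec.snd (Primrec.const []) hh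
  refine h.of_eq ?_
  rintro ⟨σ, s⟩
  induction s with
  | zero => rfl
  | succ s ih =>
    change _ = dls (kn (ext σ)) s ++ [bld (kn (ext σ)) (dls (kn (ext σ)) s) s s]
    rw [← ih]

theorem pf_t48 : Primrec fun x : ((List Bool × ℕ) × ℕ × ℕ) × ℕ =>
    t48_S (cS (ext x.1.1.1) x.1.1.2) x.1.2.1 x.1.2.2 x.2 := by
  have hh : Primrec₂ fun (x : ((List Bool × ℕ) × ℕ × ℕ) × ℕ) (y : ℕ × Bool) =>
      xor y.2 (x.1.2.1.testBit y.1 && cS (ext x.1.1.1) x.1.1.2 y.1 x.1.2.2) := by
    have h1 : Primrec fun z : (((List Bool × ℕ) × ℕ × ℕ) × ℕ) × (ℕ × Bool) =>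
        cS (ext z.1.1.1.1) z.1.1.1.2 z.2.1 z.1.1.2.2 :=
      pf_cS (by fun_prop) (by fun_prop) (by fun_prop) (by fun_prop)
    have h2 : Primrec fun z : (((List Bool × ℕ) × ℕ × ℕ) × ℕ) × (ℕ × Bool) =>
        xor z.2.2 (z.1.1.2.1.testBit z.2.1 && cS (ext z.1.1.1.1) z.1.1.1.2 z.2.1 z.1.1.2.2) :=
      pf_xorb (by fun_prop) (pf_andb (by fun_prop) h1)
    exact h2
  exact Primrec.nat_rec' (f := fun x : ((List Bool × ℕ) × ℕ × ℕ) × ℕ => x.2)
    (g := fun _ => false) Primrec.snd (Primrec.const false) hh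

theorem pf_DD {σ : α → List Bool} {S k j : α → ℕ} (hσ : Primrec σ) (hS : Primrec S)
    (hk : Primrec k) (hj : Primrec j) :
    Primrec fun a => DD (cS (ext (σ a)) (S a)) (k a) (j a) := by
  unfold DD
  refine Primrec.ite (pp_eq (by fun_prop) (by fun_prop)) ?_ (Primrec.const false)
  exact pf_t48.comp (f := fun x : ((List Bool × ℕ) × ℕ × ℕ) × ℕ =>
    t48_S (cS (ext x.1.1.1) x.1.1.2) x.1.2.1 x.1.2.2 x.2)
    (g := fun a => (((σ a, S a), (k a, j a / 2)), k a)) (by fun_prop)

theorem pf_sh {σ : α → List Bool} {S k i : α → ℕ} (hσ : Primrec σ) (hS : Primrec S)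
    (hk : Primrec k) (hi : Primrec i) :
    Primrec fun a => sh (DD (cS (ext (σ a)) (S a))) (k a) (ext (σ a)) (i a) := by
  unfold sh
  exact pf_xorb (pf_ext hσ hi) (pf_DD hσ hS hk hi)

theorem pp_Left {f g : α → List Bool} (hf : Primrec f) (hg : Primrec g) :
    PrimrecPred fun a => Left (f a) (g a) := by
  have h : PrimrecPred fun a => ∃ i < (f a).length, (f a).take i = (g a).take i ∧
      (f a).getD i false = true ∧ (g a).getD i true = false := by
    refine pp_exlt (by fun_prop) (PrimrecPred.and (pp_eq (by fun_prop) (by fun_prop))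
      (PrimrecPred.and (pp_eq (by fun_prop) (by fun_prop)) (pp_eq (by fun_prop) (by fun_prop))))
  refine h.of_eq fun a => ⟨fun ⟨i, _, h⟩ => ⟨i, h⟩, fun ⟨i, h⟩ => ⟨i, ?_, h⟩⟩
  by_contra hc
  rw [List.getD_eq_default _ _ (by omega)] at h
  exact Bool.false_ne_true h.2.1

end basic

end Pool.Agent.TH769.CD
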