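import Pool.Agent.TH769.CD.Prim

set_option autoImplicit false

/-!
The construction is primitive recursive in finite data: one stage, and the table of the history.
-/

namespace Pool.Agent.TH769.CD

open Encodable Pool.Agent.Helper227 Pool.Agent.H548R2.Post
open Nat.Partrec (Code)

attribute [local fun_prop] Primrec
attribute [local fun_prop] Primrec.id Primrec.const Primrec.comp Primrec.pair Primrec.fst Primrec.snd
attribute [local fun_prop] pf_add pf_mul pf_div pf_mod pf_pow pf_getD pf_take pf_append pf_cons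
  pf_length pf_range pf_natPair pf_unpair pf_encode pf_testBit pf_xorb pf_andb pf_hlt pf_xor

section step

variable {α β : Type} [Primcodable α] [Primcodable β]
  {E : α → ℕ → ℕ → ℕ → ℕ → Prop} {C : α → ℕ → ℕ → ℕ → ℕ → ℕ → (ℕ → Prop) → Prop}
  {δ : α → ℕ → List Bool} {V : α → ℕ → ℕ → ℕ → Prop}

theorem pf_delta (hδ : Primrec fun x : α × ℕ => δ x.1 x.2) {a : β → α} {s : β → ℕ}
    (ha : Primrec a) (hs : Primrec s) : Primrec fun b => δ (a b) (s b) :=
  hδ.comp (f := fun x : α × ℕ => δ x.1 x.2) (g := fun b => (a b, s b)) (ha.pair hs)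

theorem pp_IsPrv (hδ : Primrec fun x : α × ℕ => δ x.1 x.2) {a : β → α} {s n t : β → ℕ}
    (ha : Primrec a) (hs : Primrec s) (hn : Primrec n) (ht : Primrec t) :
    PrimrecPred fun b => IsPrv (δ (a b)) (s b) (n b) (t b) := by
  refine PrimrecPred.and (pp_lt ht hs) (PrimrecPred.and (pp_eq (pf_take hn ?_) (pf_take hn ?_))
    (pp_alllt hs (pp_imp (pp_lt (by fun_prop) (by fun_prop)) (PrimrecPred.not
      (pp_eq (pf_take ?_ ?_) (pf_take ?_ ?_))))))
  · exact pf_delta hδ ha ht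
  · exact pf_delta hδ ha hs
  · fun_prop
  · exact pf_delta hδ (by fun_prop) (by fun_prop)
  · fun_prop
  · exact pf_delta hδ (by fun_prop) (by fun_prop)

theorem pp_Sub {n j : β → ℕ} {π : β → List Bool}
    (hn : Primrec n) (hj : Primrec j) (hπ : Primrec π) :
    PrimrecPred fun b => Sub (n b) (j b) (π b) := by
  refine pp_alllt hn (pp_imp (pp_eq (by fun_prop) (by fun_prop)) (pp_eq (by fun_prop) (by fun_prop)))

theorem pp_C (hC : PrimrecPred fun x : α × ℕ × ℕ × ℕ × ℕ × ℕ =>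
      C x.1 x.2.1 x.2.2.1 x.2.2.2.1 x.2.2.2.2.1 x.2.2.2.2.2 (V x.1 x.2.1 x.2.2.2.2.2))
    {a : β → α} {t m c u k : β → ℕ} (ha : Primrec a) (ht : Primrec t) (hm : Primrec m)
    (hc : Primrec c) (hu : Primrec u) (hk : Primrec k) :
    PrimrecPred fun b => C (a b) (t b) (m b) (c b) (u b) (k b) (V (a b) (t b) (k b)) :=
  hC.comp (p := fun x : α × ℕ × ℕ × ℕ × ℕ × ℕ =>
      C x.1 x.2.1 x.2.2.1 x.2.2.2.1 x.2.2.2.2.1 x.2.2.2.2.2 (V x.1 x.2.1 x.2.2.2.2.2))
    (f := fun b => (a b, t b, m b, c b, u b, k b)) (by fun_prop)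

theorem pp_Ok (hC : PrimrecPred fun x : α × ℕ × ℕ × ℕ × ℕ × ℕ =>
      C x.1 x.2.1 x.2.2.1 x.2.2.2.1 x.2.2.2.2.1 x.2.2.2.2.2 (V x.1 x.2.1 x.2.2.2.2.2))
    {a : β → α} {t m c z k : β → ℕ} (ha : Primrec a) (ht : Primrec t) (hm : Primrec m)
    (hc : Primrec c) (hz : Primrec z) (hk : Primrec k) :
    PrimrecPred fun b => Ok (C (a b)) (t b) (m b) (c b) (z b) (k b) (V (a b) (t b) (k b)) := by
  refine pp_imp (pp_exlt (by fun_prop) ?_) (pp_exlt (by fun_prop) (PrimrecPred.and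
    (pp_lt (by fun_prop) (by fun_prop)) ?_))
  · exact pp_C hC (by fun_prop) (by fun_prop) (by fun_prop) (by fun_prop) (by fun_prop)
      (by fun_prop)
  · exact pp_C hC (by fun_prop) (by fun_prop) (by fun_prop) (by fun_prop) (by fun_prop)
      (by fun_prop)

theorem pp_E (hE : PrimrecPred fun x : α × ℕ × ℕ × ℕ × ℕ =>
      E x.1 x.2.1 x.2.2.1 x.2.2.2.1 x.2.2.2.2)
    {a : β → α} {t n z k : β → ℕ} (ha : Primrec a) (ht : Primrec t) (hn : Primrec n)
    (hz : Primrec z) (hk : Primrec k) :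
    PrimrecPred fun b => E (a b) (t b) (n b) (z b) (k b) :=
  hE.comp (p := fun x : α × ℕ × ℕ × ℕ × ℕ => E x.1 x.2.1 x.2.2.1 x.2.2.2.1 x.2.2.2.2)
    (f := fun b => (a b, t b, n b, z b, k b)) (by fun_prop)

theorem pp_V (hV : PrimrecPred fun x : α × ℕ × ℕ × ℕ => V x.1 x.2.1 x.2.2.1 x.2.2.2)
    {a : β → α} {t k z : β → ℕ} (ha : Primrec a) (ht : Primrec t)
    (hk : Primrec k) (hz : Primrec z) :
    PrimrecPred fun b => V (a b) (t b) (k b) (z b) :=
  hV.comp (p := fun x : α × ℕ × ℕ × ℕ => V x.1 x.2.1 x.2.2.1 x.2.2.2)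
    (f := fun b => (a b, t b, k b, z b)) (by fun_prop)

theorem pp_Cand (hE : PrimrecPred fun x : α × ℕ × ℕ × ℕ × ℕ =>
      E x.1 x.2.1 x.2.2.1 x.2.2.2.1 x.2.2.2.2)
    (hC : PrimrecPred fun x : α × ℕ × ℕ × ℕ × ℕ × ℕ =>
      C x.1 x.2.1 x.2.2.1 x.2.2.2.1 x.2.2.2.2.1 x.2.2.2.2.2 (V x.1 x.2.1 x.2.2.2.2.2))
    (hδ : Primrec fun x : α × ℕ => δ x.1 x.2)
    (hV : PrimrecPred fun x : α × ℕ × ℕ × ℕ => V x.1 x.2.1 x.2.2.1 x.2.2.2)
    {a : β → α} {s n k z : β → ℕ} (ha : Primrec a) (hs : Primrec s)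
    (hn : Primrec n) (hk : Primrec k) (hz : Primrec z) :
    PrimrecPred fun b => Cand (E (a b)) (C (a b)) (δ (a b)) (V (a b)) (s b) (n b) (k b) (z b) := by
  have hd := pf_delta hδ ha hs
  refine PrimrecPred.and (pp_lt hz hs) (PrimrecPred.and
    (pp_eq (by fun_prop) (pf_encode (pf_take hn hd)))
    (PrimrecPred.and (pp_alllt hs (pp_imp ?_ (pp_lt (by fun_prop) (by fun_prop))))
      (pp_exlt hs (PrimrecPred.and ?_ (PrimrecPred.and ?_ ?_)))))
  · refine pp_Left ?_ (pf_take (by fun_prop) ?_)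
    · exact pf_delta hδ (by fun_prop) (by fun_prop)
    · exact pf_delta hδ (by fun_prop) (by fun_prop)
  · exact pp_IsPrv hδ (by fun_prop) (by fun_prop) (by fun_prop) (by fun_prop)
  · refine pp_exlt (by fun_prop) (PrimrecPred.and ?_ (PrimrecPred.and ?_
      (pp_alllt (by fun_prop) (pp_imp ?_ (PrimrecPred.not ?_)))))
    · exact pp_Sub (by fun_prop) (by fun_prop) (pf_delta hδ (by fun_prop) (by fun_prop))
    · exact pp_E hE (by fun_prop) (by fun_prop) (by fun_prop) (by fun_prop) (by fun_prop)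
    · exact pp_V hV (by fun_prop) (by fun_prop) (by fun_prop) (by fun_prop)
    · exact pp_E hE (by fun_prop) (by fun_prop) (by fun_prop) (by fun_prop) (by fun_prop)
  · refine pp_alllt (by fun_prop) (pp_alllt (by fun_prop) (pp_imp ?_ ?_))
    · exact pp_Sub (by fun_prop) (by fun_prop) (pf_delta hδ (by fun_prop) (by fun_prop))
    · refine pp_Ok hC (by fun_prop) (by fun_prop) (by fun_prop) (pf_encode (pf_take (by fun_prop)
        (pf_delta hδ (by fun_prop) (by fun_prop)))) (by fun_prop) (by fun_prop)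

theorem pp_Veto
    (hC : PrimrecPred fun x : α × ℕ × ℕ × ℕ × ℕ × ℕ =>
      C x.1 x.2.1 x.2.2.1 x.2.2.2.1 x.2.2.2.2.1 x.2.2.2.2.2 (V x.1 x.2.1 x.2.2.2.2.2))
    (hδ : Primrec fun x : α × ℕ => δ x.1 x.2)
    {a : β → α} {s n k z : β → ℕ} (ha : Primrec a) (hs : Primrec s)
    (hn : Primrec n) (hk : Primrec k) (hz : Primrec z) :
    PrimrecPred fun b => Veto (C (a b)) (δ (a b)) (V (a b)) (s b) (n b) (k b) (z b) := by
  refine pp_alllt (by fun_prop) (pp_alllt (by fun_prop) (pp_imp ?_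
    (pp_alllt (by fun_prop) (pp_imp ?_ ?_))))
  · exact pp_IsPrv hδ (by fun_prop) (by fun_prop) (by fun_prop) (by fun_prop)
  · exact pp_Sub (by fun_prop) (by fun_prop) (pf_delta hδ (by fun_prop) (by fun_prop))
  · exact pp_Ok hC (by fun_prop) (by fun_prop) (by fun_prop) (pf_encode (pf_take (by fun_prop)
        (pf_delta hδ (by fun_prop) (by fun_prop)))) (by fun_prop) (by fun_prop)

theorem pp_Step (hE : PrimrecPred fun x : α × ℕ × ℕ × ℕ × ℕ =>
      E x.1 x.2.1 x.2.2.1 x.2.2.2.1 x.2.2.2.2)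
    (hC : PrimrecPred fun x : α × ℕ × ℕ × ℕ × ℕ × ℕ =>
      C x.1 x.2.1 x.2.2.1 x.2.2.2.1 x.2.2.2.2.1 x.2.2.2.2.2 (V x.1 x.2.1 x.2.2.2.2.2))
    (hδ : Primrec fun x : α × ℕ => δ x.1 x.2)
    (hV : PrimrecPred fun x : α × ℕ × ℕ × ℕ => V x.1 x.2.1 x.2.2.1 x.2.2.2)
    {a : β → α} {s k z : β → ℕ} (ha : Primrec a) (hs : Primrec s)
    (hk : Primrec k) (hz : Primrec z) :
    PrimrecPred fun b => Step (E (a b)) (C (a b)) (δ (a b)) (V (a b)) (s b) (k b) (z b) := by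
  refine pp_exlt hs (PrimrecPred.and ?_ (PrimrecPred.and (pp_alllt (by fun_prop)
    (PrimrecPred.not ?_)) ?_))
  · exact pp_Cand hE hC hδ hV (by fun_prop) (by fun_prop) (by fun_prop) (by fun_prop) (by fun_prop)
  · exact pp_Cand hE hC hδ hV (by fun_prop) (by fun_prop) (by fun_prop) (by fun_prop) (by fun_prop)
  · exact pp_Veto hC hδ (by fun_prop) (by fun_prop) (by fun_prop) (by fun_prop) (by fun_prop)

end step

/-! The table. -/

/-- the relation coded by a list of numbers -/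
def mm (H : List ℕ) (s k z : ℕ) : Prop := Nat.pair k (Nat.pair s z) ∈ H

/-- The finite data: a string, a bound, the strings of the stages, and the history. -/
abbrev Env : Type := ((List Bool × ℕ) × List (List Bool)) × List ℕ

def eE (x : Env) : ℕ → ℕ → ℕ → ℕ → Prop := EE (ext x.1.1.1) (cS (ext x.1.1.1) x.1.1.2)

def eC (x : Env) : ℕ → ℕ → ℕ → ℕ → ℕ → (ℕ → Prop) → Prop :=
  CC (ext x.1.1.1) (cS (ext x.1.1.1) x.1.1.2)

def eδ (x : Env) (s : ℕ) : List Bool := x.1.2.getD s []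

def eV (x : Env) : ℕ → ℕ → ℕ → Prop := VV (mm x.2)

theorem pp_eE : PrimrecPred fun x : Env × ℕ × ℕ × ℕ × ℕ =>
    eE x.1 x.2.1 x.2.2.1 x.2.2.2.1 x.2.2.2.2 := by
  refine pp_En ?_ (by fun_prop) (by fun_prop) (by fun_prop)
  exact pf_sh (by fun_prop) (by fun_prop) (by fun_prop) (by fun_prop)

theorem pp_eV : PrimrecPred fun x : Env × ℕ × ℕ × ℕ => eV x.1 x.2.1 x.2.2.1 x.2.2.2 := by
  refine pp_exlt (by fun_prop) ?_
  exact pp_mem (by fun_prop) (by fun_prop)

theorem pf_eδ : Primrec fun x : Env × ℕ => eδ x.1 x.2 := by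
  unfold eδ
  fun_prop

theorem pp_eC : PrimrecPred fun x : Env × ℕ × ℕ × ℕ × ℕ × ℕ =>
    eC x.1 x.2.1 x.2.2.1 x.2.2.2.1 x.2.2.2.2.1 x.2.2.2.2.2 (eV x.1 x.2.1 x.2.2.2.2.2) := by
  classical
  refine pp_exlt (by fun_prop) (PrimrecPred.and (pp_eq (by fun_prop) (by fun_prop))
    (pp_eq (pf_hlt (by fun_prop) (by fun_prop) (by fun_prop) (pf_pre ?_ (by fun_prop)))
      (by fun_prop)))
  unfold jp
  refine Primrec.ite (pp_eq (by fun_prop) (by fun_prop)) ?_ (pf_decide ?_ _)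
  · exact pf_sh (by fun_prop) (by fun_prop) (by fun_prop) (by fun_prop)
  · exact pp_V pp_eV (by fun_prop) (by fun_prop) (by fun_prop) (by fun_prop)

/-- a bound for the codes -/
def Bd (S : ℕ) : ℕ := Nat.pair (2 ^ S) (Nat.pair S S)

/-- the membership condition for a code `x` at stage `s` -/
def Nw (σ : List Bool) (S s : ℕ) (H : List ℕ) (x : ℕ) : Prop :=
  x.unpair.1 < 2 ^ S ∧ x.unpair.2.unpair.1 = s ∧
    Step (eE (((σ, S), dls (kn (ext σ)) S), H)) (eC (((σ, S), dls (kn (ext σ)) S), H))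
      (eδ (((σ, S), dls (kn (ext σ)) S), H)) (eV (((σ, S), dls (kn (ext σ)) S), H)) s
      x.unpair.1 x.unpair.2.unpair.2

open Classical in
/-- the list of the codes of the actions before stage `s` -/
noncomputable def HL (σ : List Bool) (S : ℕ) : ℕ → List ℕ
  | 0 => []
  | s + 1 => HL σ S s ++ (List.range (Bd S)).filterMap
      (fun x => if Nw σ S s (HL σ S s) x then some x else none)

theorem pp_Nw : PrimrecPred fun y : ((List Bool × ℕ) × ℕ × List ℕ) × ℕ =>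
    Nw y.1.1.1 y.1.1.2 y.1.2.1 y.1.2.2 y.2 := by
  refine PrimrecPred.and (pp_lt (by fun_prop) (by fun_prop)) (PrimrecPred.and
    (pp_eq (by fun_prop) (by fun_prop)) ?_)
  have hd : Primrec fun y : ((List Bool × ℕ) × ℕ × List ℕ) × ℕ =>
      dls (kn (ext y.1.1.1)) y.1.1.2 :=
    pf_dls.comp (f := fun x : List Bool × ℕ => dls (kn (ext x.1)) x.2)
      (g := fun y : ((List Bool × ℕ) × ℕ × List ℕ) × ℕ => (y.1.1.1, y.1.1.2)) (by fun_prop)
  have ha : Primrec fun y : ((List Bool × ℕ) × ℕ × List ℕ) × ℕ =>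
      ((((y.1.1.1, y.1.1.2), dls (kn (ext y.1.1.1)) y.1.1.2), y.1.2.2) : Env) :=
    Primrec.pair (Primrec.pair (by fun_prop) hd) (by fun_prop)
  exact pp_Step pp_eE pp_eC pf_eδ pp_eV
    (a := fun y : ((List Bool × ℕ) × ℕ × List ℕ) × ℕ =>
      ((((y.1.1.1, y.1.1.2), dls (kn (ext y.1.1.1)) y.1.1.2), y.1.2.2) : Env))
    ha (by fun_prop) (by fun_prop) (by fun_prop)

theorem pf_HL : Primrec fun x : (List Bool × ℕ) × ℕ => HL x.1.1 x.1.2 x.2 := by
  classical
  have hh : Primrec₂ fun (x : (List Bool × ℕ) × ℕ) (y : ℕ × List ℕ) =>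
      y.2 ++ (List.range (Bd x.1.2)).filterMap
        (fun c => if Nw x.1.1 x.1.2 y.1 y.2 c then some c else none) := by
    have h1 : Primrec₂ fun (z : ((List Bool × ℕ) × ℕ) × (ℕ × List ℕ)) (c : ℕ) =>
        if Nw z.1.1.1 z.1.1.2 z.2.1 z.2.2 c then some c else none := by
      refine Primrec.ite (c := fun w : (((List Bool × ℕ) × ℕ) × (ℕ × List ℕ)) × ℕ =>
        Nw w.1.1.1.1 w.1.1.1.2 w.1.2.1 w.1.2.2 w.2) ?_ (Primrec.option_some.comp Primrec.snd)
        (Primrec.const none)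
      exact pp_Nw.comp (f := fun w : (((List Bool × ℕ) × ℕ) × (ℕ × List ℕ)) × ℕ =>
        (((w.1.1.1.1, w.1.1.1.2), (w.1.2.1, w.1.2.2)), w.2)) (by fun_prop)
    have h2 : Primrec fun z : ((List Bool × ℕ) × ℕ) × (ℕ × List ℕ) => List.range (Bd z.1.1.2) := by
      unfold Bd
      fun_prop
    have h3 := Primrec.listFilterMap h2 h1
    exact pf_append (f := fun z : ((List Bool × ℕ) × ℕ) × (ℕ × List ℕ) => z.2.2) (by fun_prop) h3
  have h := Primrec.nat_rec' (f := fun x : (List Bool × ℕ) × ℕ => x.2)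
    (g := fun _ => ([] : List ℕ)) Primrec.snd (Primrec.const []) hh
  refine h.of_eq ?_
  rintro ⟨⟨σ, S⟩, s⟩
  induction s with
  | zero => rfl
  | succ s ih =>
    change _ = HL σ S s ++ (List.range (Bd S)).filterMap
      (fun x => if Nw σ S s (HL σ S s) x then some x else none)
    rw [← ih]

end Pool.Agent.TH769.CD
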