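import Pool.Agent.TH769.CD.Prim2

set_option autoImplicit false

/-!
The table of the history computes the construction.
-/

namespace Pool.Agent.TH769.CD

open Encodable Pool.Agent.Helper227 Pool.Agent.H548R2.Post
open Nat.Partrec (Code)

theorem mm_HL {σ : List Bool} {S n : ℕ} (hn : n ≤ S) {s k z : ℕ} :
    mm (HL σ S n) s k z ↔ s < n ∧ k < 2 ^ S ∧
      Step (EE (ext σ) (cS (ext σ) S)) (CC (ext σ) (cS (ext σ) S))
        (fun s => (dls (kn (ext σ)) S).getD s []) (VV (mm (HL σ S s))) s k z := by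
  induction n with
  | zero => simp [mm, HL]
  | succ n ih =>
    have h1 : mm (HL σ S (n + 1)) s k z ↔ mm (HL σ S n) s k z ∨
        (Nat.pair k (Nat.pair s z) < Bd S ∧ Nw σ S n (HL σ S n) (Nat.pair k (Nat.pair s z))) := by
      unfold mm
      rw [HL, List.mem_append, List.mem_filterMap]
      refine or_congr Iff.rfl ?_
      constructor
      · rintro ⟨x, hx, h2⟩
        split_ifs at h2 with h3
        have h4 : x = Nat.pair k (Nat.pair s z) := by simpa using h2
        subst h4
        exact ⟨List.mem_range.1 hx, h3⟩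
      · rintro ⟨h2, h3⟩
        exact ⟨_, List.mem_range.2 h2, by rw [if_pos h3]⟩
    rw [h1, ih (by omega)]
    unfold Nw
    simp only [Nat.unpair_pair]
    constructor
    · rintro (⟨h2, h3⟩ | ⟨-, h2, h3, h4⟩)
      · exact ⟨by omega, h3⟩
      · subst h3
        exact ⟨Nat.lt_succ_self _, h2, h4⟩
    · rintro ⟨h2, h3, h4⟩
      rcases Nat.lt_succ_iff_lt_or_eq.1 h2 with h5 | h5
      · exact Or.inl ⟨h5, h3, h4⟩
      · subst h5
        refine Or.inr ⟨?_, h3, rfl, h4⟩
        obtain ⟨n', -, hact⟩ := h4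
        have h6 : z < s := hact.1.1
        unfold Bd
        refine (Nat.pair_lt_pair_left _ h3).trans (Nat.pair_lt_pair_right _ ?_)
        exact (Nat.pair_lt_pair_left _ (show s < S by omega)).trans
          (Nat.pair_lt_pair_right _ (by omega))

theorem mm_eq {σ : List Bool} {S : ℕ} {s k z : ℕ} (hs : s < S) (hk : k < 2 ^ S) :
    mm (HL σ S S) s k z ↔
      Step (EE (ext σ) (cS (ext σ) S)) (CC (ext σ) (cS (ext σ) S))
        (fun s => (dls (kn (ext σ)) S).getD s []) (VV (mm (HL σ S S))) s k z := by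
  rw [mm_HL le_rfl]
  have hag : ∀ n < s, ∀ t, IsPrv (fun s => (dls (kn (ext σ)) S).getD s []) s n t → ∀ j < 2 ^ n,
      Sub n j ((fun s => (dls (kn (ext σ)) S).getD s []) s) →
      Agr (EE (ext σ) (cS (ext σ) S)) (CC (ext σ) (cS (ext σ) S)) (VV (mm (HL σ S s)))
        (EE (ext σ) (cS (ext σ) S)) (CC (ext σ) (cS (ext σ) S)) (VV (mm (HL σ S S))) t
        (k ^^^ j) (k ^^^ j) := by
    intro n _ t hp j _ _
    have h2 := hp.1
    have h3 : ∀ y, VV (mm (HL σ S s)) t (k ^^^ j) y ↔ VV (mm (HL σ S S)) t (k ^^^ j) y := by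
      intro y
      refine exists_congr fun q => and_congr_right fun hq => ?_
      rw [mm_HL hs.le, mm_HL le_rfl]
      exact ⟨fun h => ⟨by omega, h.2⟩, fun h => ⟨by omega, h.2⟩⟩
    exact ⟨fun n z => Iff.rfl, fun m c' u hu => CC_congr (fun _ _ => rfl) (fun y _ => h3 y), h3⟩
  constructor
  · rintro ⟨-, -, h⟩
    exact step_comp hag h
  · intro h
    exact ⟨hs, hk, step_comp (fun n hn t hp j hj hsub => (hag n hn t hp j hj hsub).symm) h⟩

section

variable {X : ℕ → Bool} {S L : ℕ}

theorem ext_pre_eq {i : ℕ} (hi : i < L) : ext (pre X L) i = X i := t42_ext_pre hi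

theorem od_eq (hL : 2 * S + 2 ≤ L) : ∀ i < S + 1, od (ext (pre X L)) i = od X i := by
  intro i hi
  unfold od
  exact ext_pre_eq (by omega)

theorem kn_eq (hL : 2 * S + 2 ≤ L) {i t s : ℕ} (hs : s ≤ S + 1) :
    kn (ext (pre X L)) i t s = kn X i t s := by
  rw [Bool.eq_iff_iff, kn_iff, kn_iff]
  have h : ∀ e z, En s e z (od (ext (pre X L))) ↔ En s e z (od X) := fun e z =>
    En_congr fun i hi => od_eq hL i (by omega)
  simp only [h]

theorem cS_eq (hL : 2 * S + 2 ≤ L) : cS (ext (pre X L)) S = cS X S := by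
  funext i m
  unfold cS
  rw [decide_eq_decide]
  refine exists_congr fun s => and_congr_right fun hs => ?_
  have h : ∀ e z, En s e z (od (ext (pre X L))) ↔ En s e z (od X) := fun e z =>
    En_congr fun i hi => od_eq hL i (by omega)
  rw [h, h]

theorem delta_eq (hL : 2 * S + 2 ≤ L) {s : ℕ} (hs : s < S) :
    (dls (kn (ext (pre X L))) S).getD s [] = dl (kn X) s := by
  rw [dls_congr (kn' := kn X) fun i t s hs => kn_eq hL (by omega), dls_getD _ hs]

/-- The table for an initial segment of `X` computes the construction for `X`. -/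
theorem mm_AA (hL : 2 * S + 2 ≤ L) : ∀ s < S, ∀ k < 2 ^ S,
    (∀ i < s, DD (cI X) k i = DD (cS X S) k i) →
      ∀ z, AA X s k z ↔ mm (HL (pre X L) S S) s k z := by
  intro s hs k hk hD z
  refine comp_A (S := S)
    (R := fun s k k' => k' = k ∧ k < 2 ^ S ∧ ∀ i < s, DD (cI X) k i = DD (cS X S) k i)
    (E := EE X (cI X)) (C := CC X (cI X)) (δ := dl (kn X))
    (E' := EE (ext (pre X L)) (cS (ext (pre X L)) S))
    (C' := CC (ext (pre X L)) (cS (ext (pre X L)) S))
    (A := AA X) (A' := mm (HL (pre X L) S S)) ?_ ?_ ?_ ?_ ?_ ?_ s hs k k ⟨rfl, hk, hD⟩ z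
  · intro s _ k _ _ z
    exact Ac_eq X (cI X) (dl (kn X)) s k z
  · intro s hs k k' hR z
    rw [mm_eq hs (by rw [hR.1]; exact hR.2.1)]
    exact step_delta_iff fun t ht => delta_eq hL (by omega)
  · intro s s' k k' hR hs
    exact ⟨hR.1, hR.2.1, fun i hi => hR.2.2 i (by omega)⟩
  · intro s hs n hn t k k' j hR hp hj hsub
    have hts := hp.1
    refine ⟨by rw [hR.1], Nat.xor_lt_two_pow hR.2.1
      (hj.trans_le (Nat.pow_le_pow_right (by norm_num) (by omega))), fun i hi => ?_⟩
    rw [DD_xor, DD_xor, hR.2.2 i (by omega)]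
    congr 1
    refine DD_congr fun b hb => (cS_eq_cI (t := t + 1) ?_ (by omega)).symm
    have hbn : b < n := by
      by_contra hc
      rw [Nat.testBit_lt_two_pow (hj.trans_le (Nat.pow_le_pow_right (by norm_num) (by omega)))] at hb
      exact Bool.false_ne_true hb
    exact kn_mono X b (t + 1) (t + 1) s S le_rfl hs.le
      (kn_of_dl (kn X) hts hp.2.1 hbn (hsub b hbn hb))
  · intro t ht k k' hR n z
    refine EE_congr fun i hi => ?_
    rw [cS_eq hL, hR.1]
    exact sh_agree (u := t) (fun i hi => (ext_pre_eq (by omega)).symm) hR.2.2 i hi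
  · intro t ht k k' hR m c u v v' hu hv
    refine CC_congr (fun i hi => ?_) (fun y _ => hv y)
    rw [cS_eq hL, hR.1]
    exact sh_agree (u := t) (fun i hi => (ext_pre_eq (by omega)).symm) hR.2.2 i (by omega)

end

/-- The finite version of the statement that `z` is in the set after stage `t`. -/
def VF (σ : List Bool) (t z : ℕ) : Prop := VV (mm (HL σ (t + 1) (t + 1))) t 0 z

theorem VF_iff {X : ℕ → Bool} {L t z : ℕ} (hL : 2 * t + 4 ≤ L) :
    VF (pre X L) t z ↔ VV (AA X) t 0 z := by
  refine exists_congr fun s => and_congr_right fun hs => ?_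
  refine (mm_AA (S := t + 1) (by omega) s hs 0 (by positivity) (fun i _ => ?_) z).symm
  refine DD_congr fun b hb => ?_
  rw [Nat.zero_testBit] at hb
  exact absurd hb (by simp)

attribute [local fun_prop] Primrec
attribute [local fun_prop] Primrec.id Primrec.const Primrec.comp Primrec.pair Primrec.fst Primrec.snd
attribute [local fun_prop] pf_add pf_mul pf_div pf_mod pf_pow pf_getD pf_take pf_append pf_cons
  pf_length pf_range pf_natPair pf_unpair pf_encode pf_testBit pf_xorb pf_andb pf_hlt pf_xor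

theorem pp_VF {β : Type} [Primcodable β] {σ : β → List Bool} {t z : β → ℕ} (hσ : Primrec σ)
    (ht : Primrec t) (hz : Primrec z) : PrimrecPred fun b => VF (σ b) (t b) (z b) := by
  refine pp_exlt (by fun_prop) (pp_mem (by fun_prop) ?_)
  exact pf_HL.comp (f := fun x : (List Bool × ℕ) × ℕ => HL x.1.1 x.1.2 x.2)
    (g := fun y : β × ℕ => ((σ y.1, t y.1 + 1), t y.1 + 1)) (by fun_prop)

end Pool.Agent.TH769.CD
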